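import Pool.Agent.Lib.MP_97567f_al.I2.Spec

/-!
# Automorphisms of the free product of an infinite cyclic and a finite cyclic group
-/

set_option autoImplicit false

namespace Pool.Agent.Lib.MP_97567f_al

open Monoid

section strip

variable {M : Bool → Type} [∀ i, Group (M i)]

/-- Removing the first and the last letter if they are in `M false`. -/
theorem I2Aut0_strip (g : CoprodI M) (hg : ∀ q : M false, g ≠ CoprodI.of q) :
    ∃ (q q' : M false) (g' : CoprodI M) (m : ℕ), RW M true true m g' ∧
      g = CoprodI.of q * g' * CoprodI.of q' := by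
  rcases RW.exists g with rfl | ⟨i, j, n, h⟩
  · exact absurd (map_one _).symm (hg 1)
  have hleft : ∃ (q : M false) (g' : CoprodI M) (m : ℕ), RW M true j m g' ∧
      g = CoprodI.of q * g' := by
    cases i with
    | true => exact ⟨1, g, n, h, by rw [map_one, one_mul]⟩
    | false =>
      rcases h.left with ⟨_, _, a, _, h2⟩ | ⟨a, g', n', _, _, h3, h4⟩
      · exact absurd h2 (hg a)
      · exact ⟨a, g', n', h3, h4⟩
  obtain ⟨q, g', m, h1, h2⟩ := hleft
  cases j with
  | true => exact ⟨q, 1, g', m, h1, by rw [map_one, mul_one, h2]⟩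
  | false =>
    rcases h1.right with ⟨h3, _⟩ | ⟨b, g'', n', _, _, h3, h4⟩
    · exact absurd h3 (by decide)
    · exact ⟨q, b, g'', n', h3, by rw [h2, h4, mul_assoc]⟩

/-- The hypothesis of `XGen`. -/
theorem I2Aut0_pow (h2 : XPow) {m : ℕ} {g : CoprodI M} (hg : RW M true true m g)
    (hinf : ∀ n : ℕ, 0 < n → g ^ n ≠ 1) (n : ℤ) (hn : g ^ n ≠ 1) :
    ∃ m', m ≤ m' ∧ RW M true true m' (g ^ n) := by
  rcases n with k | k
  · rcases Nat.eq_zero_or_pos k with rfl | hk
    · exact absurd (by simp) hn
    · obtain ⟨m', h3, h4⟩ := h2 M true m g hg hinf k hk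
      refine ⟨m', h3, ?_⟩
      rw [Int.ofNat_eq_natCast, zpow_natCast]
      exact h4
  · obtain ⟨m', h3, h4⟩ := h2 M true m g hg hinf (k + 1) (Nat.succ_pos k)
    refine ⟨m', h3, ?_⟩
    rw [zpow_negSucc]
    exact h4.inv

end strip

section cyc

variable (c : Bool → ℕ)

theorem I2Aut0_of (b : Bool) (a : Multiplicative (ZMod (c b))) :
    ∃ j : ℤ, (CoprodI.of (M := fun b : Bool => Multiplicative (ZMod (c b))) (i := b) a : FZ c) =
      gz c b ^ j := by
  obtain ⟨j, hj⟩ := ZMod.intCast_surjective (Multiplicative.toAdd a)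
  refine ⟨j, ?_⟩
  have h1 : a = (Multiplicative.ofAdd (1 : ZMod (c b))) ^ j := by
    rw [← ofAdd_zsmul, zsmul_one, hj]
    rfl
  rw [gz, ← map_zpow, ← h1]

theorem I2Aut0_top : Subgroup.closure {gz c true, gz c false} = (⊤ : Subgroup (FZ c)) := by
  rw [eq_top_iff]
  rintro z -
  induction z using CoprodI.induction_on with
  | one => exact Subgroup.one_mem _
  | of i m =>
    obtain ⟨j, hj⟩ := I2Aut0_of c i m
    rw [hj]
    refine Subgroup.zpow_mem _ (Subgroup.subset_closure ?_) j
    cases i with
    | true => exact Or.inl rfl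
    | false => exact Or.inr rfl
  | mul x y hx hy => exact Subgroup.mul_mem _ hx hy

/-- The exponent sum of the generator `true`. -/
noncomputable def I2Aut0_f (h : c true = 0) : FZ c →* Multiplicative ℤ :=
  CoprodI.lift fun b => match b with
    | true => AddMonoidHom.toMultiplicative (ZMod.lift (c true) ⟨AddMonoidHom.id ℤ, by simp [h]⟩)
    | false => 1

variable {c}

theorem I2Aut0_f_true (h : c true = 0) (j : ℤ) : I2Aut0_f c h (gz c true ^ j) =
    Multiplicative.ofAdd j := by
  have h1 : I2Aut0_f c h (gz c true) = Multiplicative.ofAdd 1 := by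
    rw [I2Aut0_f, gz, CoprodI.lift_of]
    change Multiplicative.ofAdd (ZMod.lift (c true) ⟨AddMonoidHom.id ℤ, _⟩ (1 : ZMod (c true))) = _
    have h2 := ZMod.lift_coe (c true) ⟨AddMonoidHom.id ℤ, by simp [h]⟩ 1
    rw [Int.cast_one] at h2
    rw [h2]
    rfl
  rw [map_zpow, h1, ← ofAdd_zsmul, smul_eq_mul, mul_one]

theorem I2Aut0_f_false (h : c true = 0) (q : Multiplicative (ZMod (c false))) :
    I2Aut0_f c h (CoprodI.of (M := fun b : Bool => Multiplicative (ZMod (c b))) (i := false) q) =
      1 := by
  rw [I2Aut0_f, CoprodI.lift_of]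
  rfl

theorem I2Aut0_gz_pow (b : Bool) : gz c b ^ c b = 1 := by
  rw [gz, ← map_pow, ← ofAdd_nsmul, nsmul_one, ZMod.natCast_self]
  exact map_one _

theorem I2Aut0_gz_ne (h : 2 ≤ c false) : gz c false ≠ 1 := by
  intro h1
  have : Fact (1 < c false) := ⟨h⟩
  have h2 : (Multiplicative.ofAdd (1 : ZMod (c false))) = 1 :=
    CoprodI.of_injective (M := fun b : Bool => Multiplicative (ZMod (c b))) false
      (h1.trans (map_one _).symm)
  have h3 : (1 : ZMod (c false)) = 0 := by
    have := congrArg Multiplicative.toAdd h2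
    simpa using this
  exact one_ne_zero h3

end cyc

theorem qAut0 (h1 : XTor) (h2 : XPow) (h3 : XGen) : XAut0 := by
  intro c hc0 hc α
  have hf := I2Aut0_f_true (c := c) hc0
  have hf' := I2Aut0_f_false (c := c) hc0
  generalize I2Aut0_f c hc0 = f at hf hf'
  have hcpos : 0 < c false := by omega
  have hfx : f (gz c true) = Multiplicative.ofAdd 1 := by
    have := hf 1
    rwa [zpow_one] at this
  -- the image of the generator of finite order
  have hy : α (gz c false) ^ c false = 1 := by
    rw [← map_pow, I2Aut0_gz_pow, map_one]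
  obtain ⟨i, a, h, hα⟩ := h1 (fun b : Bool => Multiplicative (ZMod (c b))) _ _ hcpos hy
  cases i with
  | true =>
    exfalso
    obtain ⟨j, hj⟩ := I2Aut0_of c true a
    have h4 : (CoprodI.of (M := fun b : Bool => Multiplicative (ZMod (c b))) (i := true) a : FZ c) ^
        c false = 1 := by
      rw [hα, conj_pow] at hy
      have h5 := congrArg (fun z => h⁻¹ * z * h) hy
      simpa [mul_assoc] using h5
    have h6 : j = 0 := by
      rw [hj, ← zpow_natCast, ← zpow_mul] at h4
      have h7 := congrArg f h4
      rw [hf, map_one] at h7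
      have h8 : j * (c false : ℤ) = 0 := by
        have h9 := congrArg Multiplicative.toAdd h7
        rwa [toAdd_ofAdd, toAdd_one] at h9
      rcases mul_eq_zero.1 h8 with h9 | h9
      · exact h9
      · omega
    rw [hj, h6, zpow_zero, mul_one, mul_inv_cancel] at hα
    refine I2Aut0_gz_ne hc (α.injective ?_)
    rw [hα, map_one]
  | false =>
    -- the automorphism after conjugation
    obtain ⟨β, hβ⟩ : ∃ β : MulAut (FZ c), ∀ z, β z = h⁻¹ * α z * h :=
      ⟨MulAut.conj h⁻¹ * α, fun z => by simp⟩
    have hβy : β (gz c false) =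
        CoprodI.of (M := fun b : Bool => Multiplicative (ZMod (c b))) (i := false) a := by
      rw [hβ, hα]
      group
    have htop : Subgroup.closure {β (gz c true), β (gz c false)} = (⊤ : Subgroup (FZ c)) := by
      have h4 := congrArg (Subgroup.map β.toMonoidHom) (I2Aut0_top c)
      rw [MonoidHom.map_closure, Set.image_pair, Subgroup.map_top_of_surjective _ β.surjective] at h4
      exact h4
    -- generation together with the finite factor
    have hgen : ∀ w : FZ c, β (gz c true) ∈ Subgroup.closure ({w} ∪ Set.range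
        fun q : Multiplicative (ZMod (c false)) =>
          CoprodI.of (M := fun b : Bool => Multiplicative (ZMod (c b))) (i := false) q) →
        Subgroup.closure ({w} ∪ Set.range fun q : Multiplicative (ZMod (c false)) =>
          (CoprodI.of (M := fun b : Bool => Multiplicative (ZMod (c b))) (i := false) q : FZ c)) =
          ⊤ := by
      intro w hw
      rw [eq_top_iff, ← htop, Subgroup.closure_le]
      rintro z (rfl | rfl)
      · exact hw
      · rw [hβy]
        exact Subgroup.subset_closure (Or.inr ⟨a, rfl⟩)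
    have hker : ∀ w : FZ c, Subgroup.closure ({w} ∪ Set.range
        fun q : Multiplicative (ZMod (c false)) =>
          (CoprodI.of (M := fun b : Bool => Multiplicative (ZMod (c b))) (i := false) q : FZ c)) =
          ⊤ → ∃ n : ℤ, Multiplicative.ofAdd 1 = f w ^ n := by
      intro w hw
      have h5 : (⊤ : Subgroup (FZ c)) ≤ (Subgroup.zpowers (f w)).comap f := by
        rw [← hw, Subgroup.closure_le]
        rintro z (rfl | ⟨q, rfl⟩)
        · exact Subgroup.mem_zpowers _
        · change f _ ∈ Subgroup.zpowers (f w)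
          rw [hf']
          exact Subgroup.one_mem _
      obtain ⟨n, hn⟩ := Subgroup.mem_zpowers_iff.1 (h5 (Subgroup.mem_top (gz c true)))
      exact ⟨n, by rw [← hfx]; exact hn.symm⟩
    have hne1 : (Multiplicative.ofAdd (1 : ℤ)) ≠ 1 := by
      intro h4
      have := congrArg Multiplicative.toAdd h4
      simp at this
    -- the image of the other generator
    have hnQ : ∀ q : Multiplicative (ZMod (c false)), β (gz c true) ≠
        CoprodI.of (M := fun b : Bool => Multiplicative (ZMod (c b))) (i := false) q := by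
      intro q hq
      obtain ⟨n, hn⟩ := hker _ (hgen (β (gz c true)) (Subgroup.subset_closure (Or.inl rfl)))
      rw [hq, hf', one_zpow] at hn
      exact hne1 hn
    obtain ⟨q, q', w, m, hw, hβx⟩ := I2Aut0_strip (M := fun b : Bool => Multiplicative (ZMod (c b))) _ hnQ
    have hwtop := hgen w (by
      rw [hβx]
      refine Subgroup.mul_mem _ (Subgroup.mul_mem _ ?_ ?_) ?_
      · exact Subgroup.subset_closure (Or.inr ⟨q, rfl⟩)
      · exact Subgroup.subset_closure (Or.inl rfl)
      · exact Subgroup.subset_closure (Or.inr ⟨q', rfl⟩))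
    obtain ⟨n0, hn0⟩ := hker w hwtop
    have hinf : ∀ n : ℕ, 0 < n → w ^ n ≠ 1 := by
      intro n hn hwn
      have h4 : f w ^ n = 1 := by rw [← map_pow, hwn, map_one]
      have h5 : (Multiplicative.ofAdd (1 : ℤ)) ^ n = 1 := by
        rw [hn0, ← zpow_natCast, ← zpow_mul, mul_comm, zpow_mul, zpow_natCast, h4, one_zpow]
      have h6 := congrArg Multiplicative.toAdd h5
      rw [toAdd_pow, toAdd_ofAdd, nsmul_eq_mul, mul_one, toAdd_one] at h6
      omega
    rcases h3 (fun b : Bool => Multiplicative (ZMod (c b))) m w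
      (I2Aut0_pow h2 hw hinf) (gz c true) (by rw [hwtop]; exact Subgroup.mem_top _) with
      ⟨q0, h4⟩ | ⟨i, j, m', hm, h4⟩
    · exfalso
      have h5 := congrArg f h4
      rw [hfx, hf'] at h5
      exact hne1 h5
    · have hx1 : (Multiplicative.ofAdd (1 : ZMod (c true))) ≠ 1 := by
        intro h5
        have h6 : gz c true = 1 := by
          rw [gz, h5]
          exact map_one _
        rw [h6, map_one] at hfx
        exact hne1 hfx.symm
      have h5 : RW (fun b : Bool => Multiplicative (ZMod (c b))) true true 1 (gz c true) :=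
        RW.single (M := fun b : Bool => Multiplicative (ZMod (c b))) (i := true) hx1
      obtain ⟨_, _, hm1⟩ := h4.unique h5
      have hm2 := hw.pos
      obtain rfl : m = 1 := by omega
      obtain ⟨b0, hb0⟩ : ∃ b0 : Multiplicative (ZMod (c true)), w =
          CoprodI.of (M := fun b : Bool => Multiplicative (ZMod (c b))) (i := true) b0 := by
        rcases hw.left with ⟨_, _, b0, _, h6⟩ | ⟨b0, g', n', _, h6, h7, _⟩
        · exact ⟨b0, h6⟩
        · have := h7.pos
          omega
      obtain ⟨j0, hj0⟩ := I2Aut0_of c true b0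
      rw [hb0, hj0, hf] at hn0
      have h8 : n0 * j0 = 1 := by
        have h9 := congrArg Multiplicative.toAdd hn0
        rw [toAdd_zpow, toAdd_ofAdd, toAdd_ofAdd, smul_eq_mul] at h9
        exact h9.symm
      have h10 : j0 = 1 ∨ j0 = -1 := by
        rcases Int.eq_one_or_neg_one_of_mul_eq_one (by rw [mul_comm] at h8; exact h8) with h | h
        · exact Or.inl h
        · exact Or.inr h
      have hβx' : h⁻¹ * α (gz c true) * h =
          CoprodI.of (M := fun b : Bool => Multiplicative (ZMod (c b))) (i := false) q * w *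
          CoprodI.of (M := fun b : Bool => Multiplicative (ZMod (c b))) (i := false) q' := by
        rw [← hβ, hβx]
      have hβy' : h⁻¹ * α (gz c false) * h =
          CoprodI.of (M := fun b : Bool => Multiplicative (ZMod (c b))) (i := false) a := by
        rw [← hβ, hβy]
      rcases h10 with h10 | h10
      · refine ⟨h, a, q, q', true, hβy', ?_⟩
        rw [hβx', hb0, hj0, h10, zpow_one, if_pos rfl]
      · refine ⟨h, a, q, q', false, hβy', ?_⟩
        rw [hβx', hb0, hj0, h10, zpow_neg_one, if_neg (by decide)]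

end Pool.Agent.Lib.MP_97567f_al
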