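import Pool.Agent.Lib.MP_97567f_al.I2.Spec

/-!
# MP_97567f_al, type I2(m): automorphisms of the free product of a group of order two and a cyclic group of odd order
-/

set_option autoImplicit false

namespace Pool.Agent.Lib.MP_97567f_al

open Monoid

private theorem I2Aut2_two (n : ℕ) (hn : n = 2) (b : Multiplicative (ZMod n)) :
    b = 1 ∨ b = Multiplicative.ofAdd 1 := by
  subst hn
  revert b
  decide

private theorem I2Aut2_pow (n : ℕ) (b : Multiplicative (ZMod n)) : b ^ n = 1 := by
  have h : n • (Multiplicative.toAdd b) = 0 := by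
    rw [nsmul_eq_mul, ZMod.natCast_self, zero_mul]
  exact congrArg Multiplicative.ofAdd h

private theorem I2Aut2_odd (n : ℕ) (hn : Odd n) (b : Multiplicative (ZMod n)) (hb : b * b = 1) :
    b = 1 := by
  have h1 : orderOf b ∣ 2 := orderOf_dvd_of_pow_eq_one (by rw [pow_two, hb])
  have h2 : orderOf b ∣ n := orderOf_dvd_of_pow_eq_one (I2Aut2_pow n b)
  have h3 : orderOf b ∣ Nat.gcd 2 n := Nat.dvd_gcd h1 h2
  have h4 : Nat.gcd 2 n = 1 := Nat.coprime_two_left.2 hn
  rw [h4, Nat.dvd_one] at h3
  exact orderOf_eq_one_iff.1 h3

private theorem I2Aut2_gen (n : ℕ) (hn : 2 ≤ n) (b : Multiplicative (ZMod n)) :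
    ∃ k : ℕ, b = Multiplicative.ofAdd (1 : ZMod n) ^ k := by
  have : NeZero n := ⟨by omega⟩
  refine ⟨(Multiplicative.toAdd b).val, ?_⟩
  have h : Multiplicative.toAdd b = (Multiplicative.toAdd b).val • (1 : ZMod n) := by
    rw [nsmul_eq_mul, mul_one, ZMod.natCast_zmod_val]
  exact congrArg Multiplicative.ofAdd h

private theorem I2Aut2_one (n : ℕ) (hn : 2 ≤ n) : Multiplicative.ofAdd (1 : ZMod n) ≠ 1 := by
  intro h
  have : Fact (1 < n) := ⟨by omega⟩
  have h1 : (1 : ZMod n) = 0 := congrArg Multiplicative.toAdd h
  exact one_ne_zero h1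

/-- the letter of the factor of order two -/
private theorem I2Aut2_letter {c : Bool → ℕ} (hc : c true = 2) {b : Multiplicative (ZMod (c true))}
    (hb : b ≠ 1) :
    CoprodI.of (M := fun b : Bool => Multiplicative (ZMod (c b))) (i := true) b = gz c true := by
  rcases I2Aut2_two _ hc b with h | h
  · exact absurd h hb
  · rw [h]
    rfl

/-- powers of an involution -/
private theorem I2Aut2_zpow {G : Type} [Group G] {g : G} (hg : g * g = 1) (n : ℤ) :
    g ^ n = 1 ∨ g ^ n = g := by
  rcases Int.even_or_odd' n with ⟨k, h | h⟩
  · left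
    rw [h, zpow_mul, zpow_ofNat, pow_two, hg, one_zpow]
  · right
    rw [h, zpow_add, zpow_mul, zpow_ofNat, pow_two, hg, one_zpow, one_mul, zpow_one]

/-- the reduction of the conjugating element -/
private theorem I2Aut2_red {c : Bool → ℕ} (hc : c true = 2) (k : FZ c) :
    ∃ (q : Multiplicative (ZMod (c false))) (k' : FZ c),
      k * gz c true * k⁻¹ =
        CoprodI.of (M := fun b : Bool => Multiplicative (ZMod (c b))) (i := false) q *
          (k' * gz c true * k'⁻¹) *
          (CoprodI.of (M := fun b : Bool => Multiplicative (ZMod (c b))) (i := false) q)⁻¹ ∧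
      (k' = 1 ∨ ∃ n, RW (fun b : Bool => Multiplicative (ZMod (c b))) true false n k') := by
  have key : ∀ (i : Bool) (n : ℕ) (g : FZ c),
      RW (fun b : Bool => Multiplicative (ZMod (c b))) i false n g →
      ∃ (q : Multiplicative (ZMod (c false))) (k' : FZ c),
        g * gz c true * g⁻¹ =
          CoprodI.of (M := fun b : Bool => Multiplicative (ZMod (c b))) (i := false) q *
            (k' * gz c true * k'⁻¹) *
            (CoprodI.of (M := fun b : Bool => Multiplicative (ZMod (c b))) (i := false) q)⁻¹ ∧
        (k' = 1 ∨ ∃ n, RW (fun b : Bool => Multiplicative (ZMod (c b))) true false n k') := by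
    intro i n g hg
    cases i with
    | true =>
      refine ⟨1, g, ?_, Or.inr ⟨n, hg⟩⟩
      rw [map_one, one_mul, inv_one, mul_one]
    | false =>
      rcases hg.left with ⟨_, _, a, _, h3⟩ | ⟨a, g', n', _, _, h3, h4⟩
      · refine ⟨a, 1, ?_, Or.inl rfl⟩
        rw [h3, one_mul, inv_one, mul_one]
      · refine ⟨a, g', ?_, Or.inr ⟨n', h3⟩⟩
        rw [h4, mul_inv_rev]
        group
  rcases RW.exists k with rfl | ⟨i, j, n, hk⟩
  · refine ⟨1, 1, ?_, Or.inl rfl⟩
    rw [map_one, inv_one, one_mul, one_mul, mul_one, mul_one]
  · cases j with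
    | false => exact key i n k hk
    | true =>
      rcases hk.right with ⟨_, _, a, ha, h3⟩ | ⟨a, g', n', ha, _, h3, h4⟩
      · refine ⟨1, 1, ?_, Or.inl rfl⟩
        rw [I2Aut2_letter hc ha] at h3
        rw [h3, map_one, inv_one, one_mul, one_mul, mul_one, mul_one, mul_inv_cancel_right]
      · rw [I2Aut2_letter hc ha] at h4
        have h5 : k * gz c true * k⁻¹ = g' * gz c true * g'⁻¹ := by
          rw [h4, mul_inv_rev]
          group
        rw [h5]
        exact key i n' g' h3

private theorem I2Aut2_conj {G : Type} [Group G] {u h z : G} (hz : z = h * u * h⁻¹) :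
    z * z = 1 ↔ u * u = 1 := by
  subst hz
  have e : h * u * h⁻¹ * (h * u * h⁻¹) = h * (u * u) * h⁻¹ := by group
  rw [e]
  constructor
  · intro h1
    calc u * u = h⁻¹ * (h * (u * u) * h⁻¹) * h := by group
      _ = 1 := by rw [h1]; group
  · intro h1
    rw [h1, mul_one, mul_inv_cancel]

private theorem I2Aut2_sq (n : ℕ) (hn : n = 2) (b : Multiplicative (ZMod n)) : b * b = 1 := by
  subst hn
  revert b
  decide

theorem qAut2 (h1 : XTor) (h2 : XGen) : XAut2 := by
  intro c hc hc3 hodd α
  have hof : ∀ (i : Bool) (u v : Multiplicative (ZMod (c i))),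
      CoprodI.of (M := fun b : Bool => Multiplicative (ZMod (c b))) (i := i) u *
        CoprodI.of (M := fun b : Bool => Multiplicative (ZMod (c b))) (i := i) v =
      CoprodI.of (M := fun b : Bool => Multiplicative (ZMod (c b))) (i := i) (u * v) :=
    fun i u v => (map_mul _ u v).symm
  have hinj : ∀ (i : Bool) (u : Multiplicative (ZMod (c i))),
      CoprodI.of (M := fun b : Bool => Multiplicative (ZMod (c b))) (i := i) u = 1 → u = 1 := by
    intro i u hu
    apply CoprodI.of_injective (M := fun b : Bool => Multiplicative (ZMod (c b))) i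
    rw [hu, map_one]
  have hxx : gz c true * gz c true = 1 := by
    unfold gz
    rw [hof, I2Aut2_sq _ hc, map_one]
  have hx1 : gz c true ≠ 1 := fun h => I2Aut2_one (c true) (by omega) (hinj true _ h)
  have hyy : gz c false * gz c false ≠ 1 := by
    intro h
    unfold gz at h
    rw [hof] at h
    exact I2Aut2_one (c false) (by omega) (I2Aut2_odd _ hodd _ (hinj false _ h))
  have hyn : gz c false ^ (c false) = 1 := by
    unfold gz
    rw [← map_pow, I2Aut2_pow, map_one]
  -- the image of the second generator
  obtain ⟨i, a, h, ha⟩ := h1 (fun b : Bool => Multiplicative (ZMod (c b))) (α (gz c false)) (c false)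
    (by omega) (by rw [← map_pow, hyn, map_one])
  cases i with
  | true =>
    exfalso
    apply hyy
    apply α.injective
    rw [map_mul, map_one, I2Aut2_conj ha, hof true, I2Aut2_sq _ hc, map_one]
  | false =>
    obtain ⟨β, hβ⟩ : ∃ β : MulAut (FZ c), ∀ z, β z = h⁻¹ * α z * h := by
      refine ⟨MulAut.conj h⁻¹ * α, fun z => ?_⟩
      rw [MulAut.mul_apply, MulAut.conj_apply, inv_inv]
    have hβy : β (gz c false) =
        CoprodI.of (M := fun b : Bool => Multiplicative (ZMod (c b))) (i := false) a := by
      rw [hβ, ha]
      group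
    -- the image of the involution
    obtain ⟨k, hk⟩ : ∃ k : FZ c, β (gz c true) = k * gz c true * k⁻¹ := by
      have h3 : β (gz c true) * β (gz c true) = 1 := by rw [← map_mul, hxx, map_one]
      have h3' : β (gz c true) ≠ 1 := fun h => hx1 (β.injective (by rw [h, map_one]))
      obtain ⟨i, b, k, hk⟩ := h1 (fun b : Bool => Multiplicative (ZMod (c b))) (β (gz c true)) 2
        (by norm_num) (by rw [pow_two, h3])
      have hb1 : b ≠ 1 := by
        rintro rfl
        apply h3'
        rw [hk, map_one, mul_one, mul_inv_cancel]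
      have hbb : b * b = 1 := by
        apply hinj i
        rw [← hof]
        exact (I2Aut2_conj hk).1 h3
      cases i with
      | false => exact absurd (I2Aut2_odd _ hodd b hbb) hb1
      | true => exact ⟨k, by rw [hk, I2Aut2_letter hc hb1]⟩
    obtain ⟨q, k', hk', hk2⟩ := I2Aut2_red hc k
    rw [← hk] at hk'
    rcases hk2 with rfl | ⟨n, hn⟩
    · refine ⟨h, a, q, q⁻¹, true, ?_, ?_⟩
      · rw [← hβ, hβy]
      · rw [← hβ, hk', one_mul, inv_one, mul_one, map_inv, if_pos rfl]
    · exfalso
      have hRx : RW (fun b : Bool => Multiplicative (ZMod (c b))) true true 1 (gz c true) :=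
        RW.single (I2Aut2_one (c true) (by omega))
      have hRg : RW (fun b : Bool => Multiplicative (ZMod (c b))) true true (n + 1 + n)
          (k' * gz c true * k'⁻¹) :=
        (hn.mul (by decide) hRx).mul (by decide) hn.inv
      have hgg : k' * gz c true * k'⁻¹ * (k' * gz c true * k'⁻¹) = 1 := by
        calc k' * gz c true * k'⁻¹ * (k' * gz c true * k'⁻¹) =
            k' * (gz c true * gz c true) * k'⁻¹ := by group
          _ = 1 := by rw [hxx, mul_one, mul_inv_cancel]
      have hXG := h2 (fun b : Bool => Multiplicative (ZMod (c b))) (n + 1 + n)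
        (k' * gz c true * k'⁻¹) (by
          intro j hj
          rcases I2Aut2_zpow hgg j with h4 | h4
          · exact absurd h4 hj
          · rw [h4]
            exact ⟨_, le_rfl, hRg⟩)
      set S : Subgroup (FZ c) := Subgroup.closure ({k' * gz c true * k'⁻¹} ∪
        Set.range fun q : Multiplicative (ZMod (c false)) =>
          CoprodI.of (M := fun b : Bool => Multiplicative (ZMod (c b))) (i := false) q) with hS
      have hSg : k' * gz c true * k'⁻¹ ∈ S := Subgroup.subset_closure (Or.inl rfl)
      have hSq : ∀ q : Multiplicative (ZMod (c false)),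
          CoprodI.of (M := fun b : Bool => Multiplicative (ZMod (c b))) (i := false) q ∈ S :=
        fun q => Subgroup.subset_closure (Or.inr ⟨q, rfl⟩)
      have hSx : β (gz c true) ∈ S := by
        rw [hk']
        exact S.mul_mem (S.mul_mem (hSq q) hSg) (S.inv_mem (hSq q))
      have hSall : ∀ z : FZ c, β z ∈ S := by
        intro z
        induction z using CoprodI.induction_on with
        | one => rw [map_one]; exact S.one_mem
        | of i m =>
          cases i with
          | true =>
            by_cases hm : m = 1
            · rw [hm, map_one, map_one]; exact S.one_mem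
            · rw [I2Aut2_letter hc hm]
              exact hSx
          | false =>
            obtain ⟨e, he⟩ := I2Aut2_gen (c false) (by omega) m
            have h5 : CoprodI.of (M := fun b : Bool => Multiplicative (ZMod (c b))) (i := false) m =
                gz c false ^ e := by
              rw [he]
              exact map_pow _ _ _
            rw [h5, map_pow, hβy]
            exact S.pow_mem (hSq a) e
        | mul z z' hz hz' => rw [map_mul]; exact S.mul_mem hz hz'
      have hxS : gz c true ∈ S := by
        obtain ⟨z, hz⟩ := β.surjective (gz c true)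
        rw [← hz]
        exact hSall z
      rcases hXG (gz c true) hxS with ⟨q', hq'⟩ | ⟨i, j, m', hm', hR⟩
      · by_cases hq1 : q' = 1
        · apply hx1
          rw [hq', hq1, map_one]
        · have h6 : RW (fun b : Bool => Multiplicative (ZMod (c b))) false false 1 (gz c true) := by
            rw [hq']
            exact RW.single hq1
          exact Bool.noConfusion (hRx.unique h6).1
      · have h7 := (hRx.unique hR).2.2
        have h8 := hn.pos
        omega

end Pool.Agent.Lib.MP_97567f_al
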