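import Pool.Agent.Lib.MP_97567f_al.I2.Spec

/-!
# MP_97567f_al, type I2(m): the subgroup generated by an element and a factor
-/

set_option autoImplicit false

namespace Pool.Agent.Lib.MP_97567f_al

open Monoid

variable {M : Bool → Type} [∀ i, Group (M i)]

private inductive I2Gen_T (g : CoprodI M) : CoprodI M → Prop
  | one : I2Gen_T g 1
  | sing (q : M false) (hq : q ≠ 1) : I2Gen_T g (CoprodI.of q)
  | cons (q : M false) (hq : q ≠ 1) (n : ℤ) (hn : g ^ n ≠ 1) (t : CoprodI M)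
      (ht : I2Gen_T g t) : I2Gen_T g (CoprodI.of q * g ^ n * t)

private def I2Gen_X (g h : CoprodI M) : Prop :=
  (∃ q : M false, h = CoprodI.of q) ∨
    ∃ (q : M false) (n : ℤ) (t : CoprodI M), g ^ n ≠ 1 ∧ I2Gen_T g t ∧
      h = CoprodI.of q * g ^ n * t

private theorem I2Gen_sub {g t : CoprodI M} (h : I2Gen_T g t) : I2Gen_X g t := by
  cases h with
  | one => exact Or.inl ⟨1, (map_one _).symm⟩
  | sing q hq => exact Or.inl ⟨q, rfl⟩
  | cons q hq n hn t ht => exact Or.inr ⟨q, n, t, hn, ht, rfl⟩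

private theorem I2Gen_of {g h : CoprodI M} (hX : I2Gen_X g h) (q' : M false) :
    I2Gen_X g (CoprodI.of q' * h) := by
  rcases hX with ⟨q, rfl⟩ | ⟨q, n, t, hn, ht, rfl⟩
  · exact Or.inl ⟨q' * q, (map_mul _ _ _).symm⟩
  · refine Or.inr ⟨q' * q, n, t, hn, ht, ?_⟩
    rw [map_mul]
    group

private theorem I2Gen_pow {g h : CoprodI M} (hX : I2Gen_X g h) (e : ℤ) :
    I2Gen_X g (g ^ e * h) := by
  by_cases he : g ^ e = 1
  · rw [he, one_mul]
    exact hX
  · rcases hX with ⟨q, rfl⟩ | ⟨q, n, t, hn, ht, rfl⟩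
    · by_cases hq : q = 1
      · refine Or.inr ⟨1, e, 1, he, .one, ?_⟩
        rw [hq, map_one, mul_one, one_mul, mul_one]
      · refine Or.inr ⟨1, e, CoprodI.of q, he, .sing q hq, ?_⟩
        rw [map_one, one_mul]
    · by_cases hq : q = 1
      · subst hq
        rw [map_one, one_mul, ← mul_assoc, ← zpow_add]
        by_cases h1 : g ^ (e + n) = 1
        · rw [h1, one_mul]
          exact I2Gen_sub ht
        · refine Or.inr ⟨1, e + n, t, h1, ht, ?_⟩
          rw [map_one, one_mul]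
      · refine Or.inr ⟨1, e, _, he, .cons q hq n hn t ht, ?_⟩
        rw [map_one, one_mul]

/-- the product with an element of the set is reduced -/
private theorem I2Gen_mul {t u : CoprodI M} (ht : t = 1 ∨ ∃ j k, RW M false j k t) {m' : ℕ}
    (hu : RW M true true m' u) : ∃ j m'', m' ≤ m'' ∧ RW M true j m'' (u * t) := by
  rcases ht with rfl | ⟨j, k, ht⟩
  · exact ⟨true, m', le_rfl, by rw [mul_one]; exact hu⟩
  · exact ⟨j, m' + k, by omega, hu.mul (by simp) ht⟩

private theorem I2Gen_red {m : ℕ} {g : CoprodI M}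
    (hg : ∀ n : ℤ, g ^ n ≠ 1 → ∃ m', m ≤ m' ∧ RW M true true m' (g ^ n)) {t : CoprodI M}
    (ht : I2Gen_T g t) : t = 1 ∨ ∃ j k, RW M false j k t := by
  induction ht with
  | one => exact Or.inl rfl
  | sing q hq => exact Or.inr ⟨false, 1, RW.single hq⟩
  | cons q hq n hn t ht ih =>
    obtain ⟨m', -, h1⟩ := hg n hn
    obtain ⟨j, m'', -, h2⟩ := I2Gen_mul ih h1
    refine Or.inr ⟨j, 1 + m'', ?_⟩
    rw [mul_assoc]
    exact (RW.single hq).mul (by simp) h2

theorem qGen : XGen := by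
  intro M _ m g hg h hh
  have hX : I2Gen_X g h := by
    refine Subgroup.closure_induction_left (p := fun x _ => I2Gen_X g x) ?_ ?_ ?_ hh
    · exact Or.inl ⟨1, (map_one _).symm⟩
    · rintro x (rfl | ⟨q, rfl⟩) y _ hy
      · have := I2Gen_pow hy 1
        rwa [zpow_one] at this
      · exact I2Gen_of hy q
    · rintro x (rfl | ⟨q, rfl⟩) y _ hy
      · have := I2Gen_pow hy (-1)
        rwa [zpow_neg, zpow_one] at this
      · have := I2Gen_of hy q⁻¹
        rwa [map_inv] at this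
  rcases hX with ⟨q, rfl⟩ | ⟨q, n, t, hn, ht, rfl⟩
  · exact Or.inl ⟨q, rfl⟩
  · right
    obtain ⟨m', hm', h1⟩ := hg n hn
    obtain ⟨j, m'', hm'', h2⟩ := I2Gen_mul (I2Gen_red hg ht) h1
    by_cases hq : q = 1
    · refine ⟨true, j, m'', by omega, ?_⟩
      rw [hq, map_one, one_mul]
      exact h2
    · refine ⟨false, j, 1 + m'', by omega, ?_⟩
      rw [mul_assoc]
      exact (RW.single hq).mul (by simp) h2

end Pool.Agent.Lib.MP_97567f_al
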