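import Pool.Agent.Lib.MP_97567f_al.I2.SpecE

/-!
# MP_97567f_al, type I2(m): the final statement
-/

set_option autoImplicit false

namespace Pool.Agent.Lib.MP_97567f_al

open Monoid Polynomial

/-- A `2 × 2` matrix which commutes with all matrices is scalar. -/
private theorem I2Good_scal {K : Type} [Field K] (W : Matrix (Fin 2) (Fin 2) K)
    (h : ∀ Y : Matrix (Fin 2) (Fin 2) K, W * Y = Y * W) :
    ∃ m : K, W = m • (1 : Matrix (Fin 2) (Fin 2) K) := by
  have h1 := h !![0, 1; 0, 0]
  have h2 := h !![0, 0; 1, 0]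
  have a1 := congrFun (congrFun h1 0) 1
  have a2 := congrFun (congrFun h1 0) 0
  have a3 := congrFun (congrFun h2 0) 0
  simp [Matrix.mul_apply, Fin.sum_univ_two] at a1 a2 a3
  refine ⟨W 0 0, ?_⟩
  ext i j
  fin_cases i <;> fin_cases j
  · simp
  · simpa using a3
  · simpa using a2.symm
  · simpa using a1.symm

/-- The image of a matrix under an injective map is scalar only if the matrix is. -/
private theorem I2Good_desc {K L : Type} [Field K] [Field L] (φ : K →+* L)
    (W : Matrix (Fin 2) (Fin 2) K) (m : L) (h : W.map φ = m • (1 : Matrix (Fin 2) (Fin 2) L)) :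
    ∃ m : K, W = m • (1 : Matrix (Fin 2) (Fin 2) K) := by
  have a1 : φ (W 0 0) = m := by
    have := congrFun (congrFun h 0) 0
    simpa using this
  have a2 : φ (W 0 1) = 0 := by
    have := congrFun (congrFun h 0) 1
    simpa using this
  have a3 : φ (W 1 0) = 0 := by
    have := congrFun (congrFun h 1) 0
    simpa using this
  have a4 : φ (W 1 1) = m := by
    have := congrFun (congrFun h 1) 1
    simpa using this
  refine ⟨W 0 0, ?_⟩
  ext i j
  fin_cases i <;> fin_cases j
  · simp
  · have := φ.injective (a2.trans (map_zero φ).symm)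
    simpa using this
  · have := φ.injective (a3.trans (map_zero φ).symm)
    simpa using this
  · have := φ.injective (a4.trans a1.symm)
    simpa using this

/-- The span after an extension of the field. -/
private theorem I2Good_span {K L G : Type} [Field K] [Field L] (φ : K →+* L)
    (f : G → Matrix (Fin 2) (Fin 2) K) (h : Submodule.span K (Set.range f) = ⊤) :
    Submodule.span L (Set.range fun g => (f g).map φ) = ⊤ := by
  have key : ∀ Z ∈ Submodule.span K (Set.range f),
      Z.map φ ∈ Submodule.span L (Set.range fun g => (f g).map φ) := by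
    intro Z hZ
    induction hZ using Submodule.span_induction with
    | mem x hx =>
      obtain ⟨g, rfl⟩ := hx
      exact Submodule.subset_span ⟨g, rfl⟩
    | zero =>
      have : (0 : Matrix (Fin 2) (Fin 2) K).map φ = 0 := by
        ext i j
        simp
      rw [this]
      exact Submodule.zero_mem _
    | add x y _ _ hx hy =>
      have : (x + y).map φ = x.map φ + y.map φ := by
        ext i j
        simp
      rw [this]
      exact Submodule.add_mem _ hx hy
    | smul a x _ hx =>
      have : (a • x).map φ = φ a • x.map φ := by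
        ext i j
        simp
      rw [this]
      exact Submodule.smul_mem _ _ hx
  rw [Submodule.eq_top_iff']
  intro Y
  rw [Matrix.matrix_eq_sum_single Y]
  apply Submodule.sum_mem
  intro i _
  apply Submodule.sum_mem
  intro j _
  have h1 : Matrix.single i j (Y i j) = Y i j • (Matrix.single i j (1 : K)).map φ := by
    rw [Matrix.map_single, map_one, Matrix.smul_single, smul_eq_mul, mul_one]
  rw [h1]
  apply Submodule.smul_mem
  apply key
  rw [h]
  trivial

private theorem I2Good_my_mul {K : Type} [Field K] (z w : K) : my z * my w = my (z * w) := by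
  ext i j
  fin_cases i <;> fin_cases j <;> simp [my, Matrix.mul_apply, Fin.sum_univ_two] <;> ring

private theorem I2Good_my_one {K : Type} [Field K] : my (1 : K) = 1 := by
  ext i j
  fin_cases i <;> fin_cases j <;> simp [my] <;> norm_num

private theorem I2Good_my_pow {K : Type} [Field K] (z : K) (k : ℕ) : my z ^ k = my (z ^ k) := by
  induction k with
  | zero => rw [pow_zero, pow_zero, I2Good_my_one]
  | succ k ih => rw [pow_succ, pow_succ, ih, I2Good_my_mul]

/-- Polynomials in `xx`. -/
private theorem I2Good_poly (P : ℂ[X]) (h : P ≠ 0) : algebraMap ℂ[X] K1 P ≠ 0 := by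
  intro h1
  apply h
  apply IsFractionRing.injective ℂ[X] K1
  rw [h1, map_zero]

private theorem I2Good_const (a : ℂ) : algebraMap ℂ K1 a = algebraMap ℂ[X] K1 (C a) := by
  rw [IsScalarTower.algebraMap_apply ℂ ℂ[X] K1]
  rfl

/-- The inverse of an element of `GL` given by a matrix. -/
private theorem I2Good_inv {K : Type} [Field K] (g : GL (Fin 2) K) (W : Matrix (Fin 2) (Fin 2) K)
    (h : W * g.1 = 1) : (g⁻¹).1 = W := by
  calc (g⁻¹).1 = (W * g.1) * (g⁻¹).1 := by rw [h, one_mul]
    _ = W * (g.1 * (g⁻¹).1) := by rw [mul_assoc]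
    _ = W := by rw [← Units.val_mul, mul_inv_cancel, Units.val_one, mul_one]

/-- The embedding of the fields. -/
private theorem I2Good_emb : Nonempty (K1 →+* U.KK) := by
  have h1 : Function.Injective (Polynomial.aeval (R := ℂ) (MvPolynomial.X 0 : MvPolynomial ℕ ℂ)) :=
    transcendental_iff_injective.1 (MvPolynomial.transcendental_X ℂ 0)
  have h2 : Function.Injective ((algebraMap (MvPolynomial ℕ ℂ) U.KK).comp
      (Polynomial.aeval (R := ℂ) (MvPolynomial.X 0 : MvPolynomial ℕ ℂ)).toRingHom) := by
    intro a b h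
    exact h1 (IsFractionRing.injective (MvPolynomial ℕ ℂ) U.KK h)
  exact ⟨IsFractionRing.lift h2⟩

/-- **Type I2(m).** -/
theorem qGood (h0 : XPres) (h1 : XOut) (h2 : XPing) (h3 : XSpan) (h4 : XVal) (h5 : XPi) :
    XGood := by
  intro M hM
  obtain ⟨φ⟩ := I2Good_emb
  obtain ⟨c, hc, p, hsurj, hp1, hp2, hcase⟩ := h5 M hM
  obtain ⟨v, hv, hv1⟩ := h4
  have hcf : c false ≠ 0 := by
    rcases hc with ⟨-, h⟩ | ⟨-, h, -⟩ <;> omega
  obtain ⟨ζ, hζ⟩ : ∃ ζ : ℂ, IsPrimitiveRoot ζ (c false) := ⟨_, Complex.isPrimitiveRoot_exp _ hcf⟩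
  have hxx : xx ≠ 0 := I2Good_poly X X_ne_zero
  obtain ⟨τ0, hτx, hτy, hτs⟩ := h2 c hc K1 v xx ζ hxx hv hv1 hζ
  have hspan0 := h3 c hc K1 v xx ζ hxx hv hv1 hζ τ0 hτx hτy
  have hnorm : ‖ζ‖ = 1 := hζ.norm'_eq_one hcf
  let τ : FZ c →* GL (Fin 2) U.KK := (Matrix.GeneralLinearGroup.map φ).comp τ0
  have hτ : ∀ g, (τ g).1 = (τ0 g).1.map φ := fun g => rfl
  have hτ1 : ∀ g, (∃ m : U.KK, (τ g).1 = m • (1 : Matrix (Fin 2) (Fin 2) U.KK)) → g = 1 := by
    rintro g ⟨m, hm⟩
    exact hτs g (I2Good_desc φ _ m hm)
  -- central elements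
  have hcen : ∀ z : Art M, (∀ a, a * z = z * a) → p z = 1 := by
    intro z hz
    apply hτs
    apply I2Good_scal
    intro Y
    have hY : Y ∈ Submodule.span K1 (Set.range fun g => (τ0 g).1) := by
      rw [hspan0]; trivial
    induction hY using Submodule.span_induction with
    | mem x hx =>
      obtain ⟨g, rfl⟩ := hx
      obtain ⟨a, rfl⟩ := hsurj g
      change (τ0 (p z)).1 * (τ0 (p a)).1 = (τ0 (p a)).1 * (τ0 (p z)).1
      rw [← Units.val_mul, ← Units.val_mul, ← map_mul, ← map_mul, ← map_mul, ← map_mul, hz]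
    | zero => rw [mul_zero, zero_mul]
    | add x y _ _ hx hy => rw [mul_add, add_mul, hx, hy]
    | smul a x _ hx => rw [Matrix.mul_smul, Matrix.smul_mul, hx]
  have hspan : Submodule.span U.KK (Set.range fun g => (τ g).1) = ⊤ :=
    I2Good_span φ (fun g => (τ0 g).1) hspan0
  -- traces
  have htr : ∀ i, ((τ.comp p) (gn M i)).1.trace ≠ 0 := by
    have htr : ∀ x : Art M, ((τ.comp p) x).1.trace = φ ((τ0 (p x)).1.trace) := by
      intro x
      change ((τ0 (p x)).1.map φ).trace = _
      rw [Matrix.trace_fin_two, Matrix.trace_fin_two, map_add]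
      rfl
    have hmain : (τ0 (p (gn M 0))).1.trace ≠ 0 ∧ (τ0 (p (gn M 1))).1.trace ≠ 0 := by
      rcases hcase with ⟨hc0, hg0, hg1⟩ | ⟨hc2, k, hk0, hk1, hg0, hg1⟩
      · -- infinite case
        have hmx : mx c xx = !![xx, 0; 0, 1] := by
          unfold mx
          rw [if_pos hc0]
        constructor
        · rw [hg0, hτx, hmx, Matrix.trace_fin_two]
          have h6 : (X + C 1 : ℂ[X]) ≠ 0 := X_add_C_ne_zero 1
          have h7 := I2Good_poly _ h6
          rw [map_add, C_1, map_one] at h7
          exact h7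
        · have hinv : ((τ0 (gz c true))⁻¹).1 = !![xx⁻¹, 0; 0, 1] := by
            apply I2Good_inv
            rw [hτx, hmx]
            ext i j
            fin_cases i <;> fin_cases j <;> simp [Matrix.mul_apply, Fin.sum_univ_two, hxx]
          rw [hg1, map_mul, map_inv, Units.val_mul, hinv, hτy]
          have h6 : (!![xx⁻¹, 0; 0, 1] * my (algebraMap ℂ K1 ζ)).trace =
              xx⁻¹ * (2 - algebraMap ℂ K1 ζ) + (2 * algebraMap ℂ K1 ζ - 1) := by
            rw [Matrix.trace_fin_two]
            simp [my, Matrix.mul_apply, Fin.sum_univ_two]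
          rw [h6]
          intro h7
          have h8 : (2 - algebraMap ℂ K1 ζ) + (2 * algebraMap ℂ K1 ζ - 1) * xx = 0 := by
            have h9 := congrArg (fun a => a * xx) h7
            simp only [zero_mul] at h9
            rw [← h9]
            field_simp
          have h10 : (C (2 - ζ) + C (2 * ζ - 1) * X : ℂ[X]) ≠ 0 := by
            intro h11
            have h12 := congrArg (fun P : ℂ[X] => P.coeff 0) h11
            simp at h12
            have h13 : ζ = 2 := (sub_eq_zero.1 h12).symm
            rw [h13] at hnorm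
            norm_num at hnorm
          apply I2Good_poly _ h10
          rw [map_add, map_mul, ← I2Good_const, ← I2Good_const, map_sub, map_sub, map_mul, map_one]
          have h14 : algebraMap ℂ K1 2 = 2 := map_ofNat _ 2
          rw [h14]
          exact h8
      · -- involution case
        have hmx : mx c xx = !![0, xx; xx⁻¹, 0] := by
          unfold mx
          rw [if_neg (by omega)]
        have hζ0 : ζ ≠ 0 := by
          intro h
          rw [h, norm_zero] at hnorm
          exact zero_ne_one hnorm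
        have hζk : ζ ^ k ≠ 1 := hζ.pow_ne_one_of_pos_of_lt (by omega) hk1
        have hinv : ((τ0 (gz c false ^ k))⁻¹).1 = my (algebraMap ℂ K1 ((ζ ^ k)⁻¹)) := by
          apply I2Good_inv
          rw [map_pow, Units.val_pow_eq_pow_val, hτy, I2Good_my_pow, I2Good_my_mul, ← map_pow,
            ← map_mul, inv_mul_cancel₀ (pow_ne_zero k hζ0), map_one, I2Good_my_one]
        have h6 : ∀ z : ℂ, z ≠ 1 → (my (algebraMap ℂ K1 z) * !![0, xx; xx⁻¹, 0]).trace ≠ 0 := by
          intro z hz h7
          have h8 : (my (algebraMap ℂ K1 z) * !![0, xx; xx⁻¹, 0]).trace =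
              (2 * algebraMap ℂ K1 z - 2) * xx⁻¹ + (1 - algebraMap ℂ K1 z) * xx := by
            rw [Matrix.trace_fin_two]
            simp [my, Matrix.mul_apply, Fin.sum_univ_two]
          rw [h8] at h7
          have h9 : (1 - algebraMap ℂ K1 z) * (xx ^ 2 - 2) = 0 := by
            have h10 := congrArg (fun a => a * xx) h7
            simp only [zero_mul] at h10
            rw [← h10]
            field_simp
            ring
          have h11 : (C (1 - z) * (X ^ 2 - C 2) : ℂ[X]) ≠ 0 := by
            apply mul_ne_zero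
            · rw [Ne, C_eq_zero, sub_eq_zero]
              exact fun h => hz h.symm
            · exact X_pow_sub_C_ne_zero (by norm_num) 2
          apply I2Good_poly _ h11
          have e1 : algebraMap ℂ[X] K1 (C (1 - z)) = 1 - algebraMap ℂ K1 z := by
            rw [← I2Good_const, map_sub, map_one]
          have e3 : algebraMap ℂ[X] K1 (C 2) = 2 := by
            rw [← I2Good_const]
            exact map_ofNat _ 2
          have e2 : algebraMap ℂ[X] K1 (X ^ 2 - C 2) = xx ^ 2 - 2 := by
            rw [map_sub, map_pow, e3]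
            rfl
          rw [map_mul, e1, e2]
          exact h9
        have hz1 : (ζ ^ k)⁻¹ ≠ 1 := fun h => hζk (inv_eq_one.1 h)
        constructor
        · rw [hg0, map_mul, map_inv, Units.val_mul, hinv, hτx, hmx]
          exact h6 _ hz1
        · rw [hg1, map_mul, map_inv, Units.val_mul, hinv, hτx, hmx, Matrix.trace_mul_comm]
          exact h6 _ hz1

    intro i
    rw [htr, Ne, map_eq_zero]
    fin_cases i
    · exact hmain.1
    · exact hmain.2
  refine ⟨fun A _ hFG i r hir => ?_, fun z hz hφ => hp2 z (hcen z fun a => (hz a).symm) hφ⟩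
  have hπ : Function.Surjective (p.comp r) := by
    intro g
    obtain ⟨x, rfl⟩ := hsurj g
    exact ⟨i x, by rw [MonoidHom.comp_apply, hir.ri]⟩
  -- the kernel is preserved
  obtain ⟨H0, hH0, hH1⟩ := h0 A hFG (Fin 2) U.KK ((τ.comp p).comp r) i.range (by
    rw [eq_top_iff, ← hspan]
    refine Submodule.span_mono ?_
    rintro _ ⟨g, rfl⟩
    obtain ⟨x, rfl⟩ := hsurj g
    refine ⟨i x, ⟨x, rfl⟩, ?_⟩
    change (τ (p x)).1 = (τ (p (r (i x)))).1
    rw [hir.ri]) (by
    intro x hx a ha
    obtain ⟨b, rfl⟩ := ha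
    have e1 : p (r x) = 1 := hτ1 _ hx
    have e2 := hp1 (r x) e1 b
    have e3 : r ((i (r x))⁻¹ * x) = 1 := by
      rw [map_mul, map_inv, hir.ri, inv_mul_cancel]
    have e4 := hir.co _ b e3
    calc i b * x = i (b * r x) * ((i (r x))⁻¹ * x) := by rw [map_mul]; group
      _ = i (r x) * (i b * ((i (r x))⁻¹ * x)) := by rw [e2, map_mul]; group
      _ = x * i b := by rw [← e4]; group)
  have hpres : ∀ α ∈ H0, ∀ x : A, (p.comp r) (α x) = 1 ↔ (p.comp r) x = 1 := by
    have key : ∀ x : A, (∃ m : U.KK, (((τ.comp p).comp r) x).1 =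
        m • (1 : Matrix (Fin 2) (Fin 2) U.KK)) ↔ (p.comp r) x = 1 := by
      intro x
      refine ⟨fun h => hτ1 _ h, fun h => ⟨1, ?_⟩⟩
      change (τ ((p.comp r) x)).1 = _
      rw [h, map_one, Units.val_one, one_smul]
    intro α hα x
    rw [← key, ← key]
    exact hH1 α hα x
  have hker : ∀ α ∈ H0, (p.comp r).ker.map (α : A →* A) = (p.comp r).ker := by
    intro α hα
    ext z
    rw [Subgroup.mem_map]
    constructor
    · rintro ⟨w, hw, rfl⟩
      exact (hpres α hα w).2 hw
    · intro hz
      refine ⟨α.symm z, ?_, MulEquiv.apply_symm_apply _ _⟩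
      change (p.comp r) (α.symm z) = 1
      have h6 := hpres α hα (α.symm z)
      rw [MulEquiv.apply_symm_apply] at h6
      exact h6.1 hz
  let e := QuotientGroup.quotientKerEquivOfSurjective (p.comp r) hπ
  let Θf : H0 → MulAut (FZ c) := fun α =>
    (e.symm.trans (QuotientGroup.congr (p.comp r).ker (p.comp r).ker α.1 (hker α.1 α.2))).trans e
  have hΘf : ∀ (α : H0) (x : A), Θf α ((p.comp r) x) = (p.comp r) (α.1 x) := by
    intro α x
    have h6 : e.symm ((p.comp r) x) = QuotientGroup.mk x := by
      rw [MulEquiv.symm_apply_eq]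
      rfl
    change e ((QuotientGroup.congr (p.comp r).ker (p.comp r).ker α.1 (hker α.1 α.2))
      (e.symm ((p.comp r) x))) = (p.comp r) (α.1 x)
    rw [h6]
    rfl
  let Θ : H0 →* MulAut (FZ c) := MonoidHom.mk' Θf (by
    intro α β
    apply MulEquiv.ext
    intro g
    obtain ⟨x, rfl⟩ := hπ g
    rw [hΘf, MulAut.mul_apply, hΘf, hΘf]
    rfl)
  have hΘ : ∀ (α : H0) (x : A), Θ α ((p.comp r) x) = (p.comp r) (α.1 x) := hΘf
  have hfi := h1 c hc
  refine ⟨Fin 2, inferInstance, inferInstance, inferInstance, τ.comp p,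
    ((MulAut.conj : FZ c →* MulAut (FZ c)).range.comap Θ).map H0.subtype, ?_, ?_, ?_, ?_, ?_⟩
  · -- finite index
    refine ⟨?_⟩
    rw [Subgroup.index_map_subtype]
    refine mul_ne_zero ?_ hH0.index_ne_zero
    rw [Subgroup.index_comap]
    have h6 : (MulAut.conj : FZ c →* MulAut (FZ c)).range.IsFiniteRelIndex Θ.range :=
      Subgroup.isFiniteRelIndex_of_finiteIndex (h := hfi)
    exact h6.relIndex_ne_zero
  · -- span
    rw [← hspan]
    congr 1
    ext Y
    constructor
    · rintro ⟨x, rfl⟩
      exact ⟨p x, rfl⟩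
    · rintro ⟨g, rfl⟩
      obtain ⟨x, rfl⟩ := hsurj g
      exact ⟨x, rfl⟩
  · -- no twists
    intro η g hη
    refine art_ext fun k => ?_
    rw [MonoidHom.one_apply]
    refine Units.ext ?_
    rw [Units.val_one]
    have h6 := congrArg Matrix.trace (hη (gn M k))
    rw [Matrix.trace_smul, Matrix.trace_mul_comm, ← mul_assoc, ← Units.val_mul, inv_mul_cancel,
      Units.val_one, one_mul, smul_eq_mul] at h6
    have h7 := htr k
    exact (mul_right_cancel₀ h7 ((one_mul _).trans h6)).symm
  · -- twists
    rintro _ ⟨α, ⟨f, hf⟩, rfl⟩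
    refine ⟨1, τ f, ?_⟩
    intro x
    have h6 : (p.comp r) (α.1 x) = f * (p.comp r) x * f⁻¹ := by
      rw [← hΘ, ← hf]
      rfl
    change (τ ((p.comp r) (α.1 x))).1 = _
    rw [h6, map_mul, map_mul, map_inv, Units.val_mul, Units.val_mul, MonoidHom.one_apply,
      Units.val_one, one_smul]
    rfl
  · intro z hz b
    exact (hp1 z (hτ1 (p z) hz) b).symm

end Pool.Agent.Lib.MP_97567f_al
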