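import Pool.Agent.Lib.MP_97567f_al.I2.Spec

/-!
# MP_97567f_al, type I2(m): the inner automorphisms have finite index
-/

set_option autoImplicit false

namespace Pool.Agent.Lib.MP_97567f_al

open Monoid

/-- A homomorphism on a cyclic group is determined by the image of the generator. -/
private theorem I2Out_cyc {n : ℕ} {G : Type} [Group G] {f g : Multiplicative (ZMod n) →* G}
    (h : f (Multiplicative.ofAdd 1) = g (Multiplicative.ofAdd 1)) : f = g := by
  refine MonoidHom.ext fun x => ?_
  obtain ⟨k, hk⟩ := ZMod.intCast_surjective (Multiplicative.toAdd x)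
  have hx : x = (Multiplicative.ofAdd (1 : ZMod n)) ^ k := by
    rw [← ofAdd_zsmul, zsmul_eq_mul, mul_one, hk, ofAdd_toAdd]
  rw [hx, map_zpow, map_zpow, h]

/-- An automorphism is determined by the images of the two generators. -/
private theorem I2Out_ext {c : Bool → ℕ} {α β : MulAut (FZ c)}
    (h : ∀ b, α (gz c b) = β (gz c b)) : α = β := by
  have h1 : α.toMonoidHom = β.toMonoidHom := by
    refine CoprodI.ext_hom _ _ fun b => I2Out_cyc ?_
    exact h b
  ext z
  exact DFunLike.congr_fun h1 z

theorem qOut (h1 : XAut0) (h2 : XAut2) : XOut := by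
  intro c hc
  have hc2 : 2 ≤ c false := by
    rcases hc with ⟨-, h⟩ | ⟨-, h, -⟩ <;> omega
  have hN : ∀ α : MulAut (FZ c),
      ∃ (h : FZ c) (a q q' : Multiplicative (ZMod (c false))) (b : Bool),
      h⁻¹ * α (gz c false) * h =
        CoprodI.of (M := fun b : Bool => Multiplicative (ZMod (c b))) (i := false) a ∧
      h⁻¹ * α (gz c true) * h =
        CoprodI.of (M := fun b : Bool => Multiplicative (ZMod (c b))) (i := false) q *
          (if b then gz c true else (gz c true)⁻¹) *
          CoprodI.of (M := fun b : Bool => Multiplicative (ZMod (c b))) (i := false) q' := by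
    rcases hc with ⟨h3, h4⟩ | ⟨h3, h4, h5⟩
    · exact h1 c h3 h4
    · exact h2 c h3 h4 h5
  choose h a q q' b e1 e2 using hN
  have : NeZero (c false) := ⟨by omega⟩
  let d : MulAut (FZ c) → Multiplicative (ZMod (c false)) × Multiplicative (ZMod (c false)) ×
    Multiplicative (ZMod (c false)) × Bool := fun α => (a α, q α, q' α, b α)
  have key : ∀ α α' : MulAut (FZ c), d α = d α' →
      α = MulAut.conj (h α * (h α')⁻¹) * α' := by
    intro α α' hd
    have d1 : a α = a α' := congrArg (fun t => t.1) hd
    have d2 : q α = q α' := congrArg (fun t => t.2.1) hd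
    have d3 : q' α = q' α' := congrArg (fun t => t.2.2.1) hd
    have d4 : b α = b α' := congrArg (fun t => t.2.2.2) hd
    apply I2Out_ext
    have hb : ∀ t, (h α)⁻¹ * α (gz c t) * h α = (h α')⁻¹ * α' (gz c t) * h α' := by
      intro t
      cases t
      · rw [e1, e1, d1]
      · rw [e2, e2, d2, d3, d4]
    intro t
    have h3 : α (gz c t) = h α * ((h α')⁻¹ * α' (gz c t) * h α') * (h α)⁻¹ := by
      rw [← hb t]
      group
    rw [MulAut.mul_apply, MulAut.conj_apply, h3]
    group
  have hfin : Finite (MulAut (FZ c) ⧸ (MulAut.conj : FZ c →* MulAut (FZ c)).range) := by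
    refine Finite.of_injective (fun u => d (Quotient.out u)) ?_
    intro u u' hu
    have h3 := key _ _ hu
    rw [← Quotient.out_eq u, ← Quotient.out_eq u']
    refine QuotientGroup.eq.2 ?_
    set α := Quotient.out u
    set α' := Quotient.out u'
    refine ⟨α'⁻¹ (h α' * (h α)⁻¹), ?_⟩
    rw [eq_inv_mul_iff_mul_eq]
    ext z
    rw [MulAut.mul_apply, MulAut.conj_apply]
    rw [map_mul, map_mul, map_inv]
    have h4 : ∀ z, α z = (h α * (h α')⁻¹) * α' z * (h α * (h α')⁻¹)⁻¹ := by
      intro z
      have h5 := DFunLike.congr_fun h3 z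
      rw [MulAut.mul_apply, MulAut.conj_apply] at h5
      exact h5
    rw [h4, h4 z, MulAut.apply_inv_self]
    group
  exact Subgroup.finiteIndex_of_finite_quotient

end Pool.Agent.Lib.MP_97567f_al
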