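import Pool.Agent.Lib.MP_97567f_al.I2.Spec

/-!
# MP_97567f_al, type I2(m): the ping-pong representation
-/

set_option autoImplicit false

namespace Pool.Agent.Lib.MP_97567f_al

open Monoid

/-- Homomorphisms from a cyclic group. -/
private theorem I2Ping_hom {G : Type} [Group G] (k : ℕ) (x : G) (hx : x ^ k = 1) :
    ∃ φ : Multiplicative (ZMod k) →* G, φ (Multiplicative.ofAdd 1) = x := by
  let f : ℤ →+ Additive G := (zmultiplesHom (Additive G)) (Additive.ofMul x)
  have hf1 : ∀ n : ℤ, f n = n • (Additive.ofMul x) := fun n => rfl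
  have hf : f (k : ℤ) = 0 := by
    rw [hf1, natCast_zsmul, ← ofMul_pow, hx, ofMul_one]
  refine ⟨AddMonoidHom.toMultiplicativeLeft (ZMod.lift k ⟨f, hf⟩), ?_⟩
  have h1 : ZMod.lift k ⟨f, hf⟩ (1 : ZMod k) = Additive.ofMul x := by
    have h2 := ZMod.lift_coe k ⟨f, hf⟩ 1
    rw [Int.cast_one] at h2
    rw [h2]
    change f 1 = _
    rw [hf1, one_zsmul]
  exact congrArg Additive.toMul h1

/-- All elements are powers of the generator. -/
private theorem I2Ping_gen (k : ℕ) (a : Multiplicative (ZMod k)) :
    ∃ n : ℤ, a = (Multiplicative.ofAdd (1 : ZMod k)) ^ n := by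
  obtain ⟨n, hn⟩ := ZMod.intCast_surjective (Multiplicative.toAdd a)
  refine ⟨n, ?_⟩
  rw [← ofAdd_zsmul, zsmul_one, hn]
  rfl

/-- The matrices `my`. -/
private theorem I2Ping_my_mul {K : Type} [Field K] (z w : K) : my z * my w = my (z * w) := by
  unfold my
  rw [Matrix.mul_fin_two]
  congr 1
  ext i j
  fin_cases i <;> fin_cases j <;> simp <;> ring

private theorem I2Ping_my_one {K : Type} [Field K] : my (1 : K) = 1 := by
  unfold my
  rw [Matrix.one_fin_two]
  congr 1
  ext i j
  fin_cases i <;> fin_cases j <;> simp <;> ring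

/-- The homomorphism `my`. -/
private noncomputable def I2Ping_Y {K : Type} [Field K] : Kˣ →* GL (Fin 2) K where
  toFun z := ⟨my (z : K), my ((z⁻¹ : Kˣ) : K), by
      rw [I2Ping_my_mul, Units.mul_inv, I2Ping_my_one], by
      rw [I2Ping_my_mul, Units.inv_mul, I2Ping_my_one]⟩
  map_one' := Units.ext I2Ping_my_one
  map_mul' z w := Units.ext (I2Ping_my_mul _ _).symm

private noncomputable def I2Ping_D {K : Type} [Field K] : Kˣ →* GL (Fin 2) K where
  toFun z := ⟨!![(z : K), 0; 0, 1], !![((z⁻¹ : Kˣ) : K), 0; 0, 1], by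
      rw [Matrix.mul_fin_two, Matrix.one_fin_two]
      simp, by
      rw [Matrix.mul_fin_two, Matrix.one_fin_two]
      simp⟩
  map_one' := Units.ext (by
    change !![((1 : Kˣ) : K), 0; 0, 1] = 1
    rw [Matrix.one_fin_two, Units.val_one])
  map_mul' z w := Units.ext (by
    change !![((z * w : Kˣ) : K), 0; 0, 1] = !![(z : K), 0; 0, 1] * !![(w : K), 0; 0, 1]
    rw [Matrix.mul_fin_two]
    simp)

private noncomputable def I2Ping_J {K : Type} [Field K] (z : Kˣ) : GL (Fin 2) K :=
  ⟨!![0, (z : K); ((z⁻¹ : Kˣ) : K), 0], !![0, (z : K); ((z⁻¹ : Kˣ) : K), 0], by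
      rw [Matrix.mul_fin_two, Matrix.one_fin_two]
      simp, by
      rw [Matrix.mul_fin_two, Matrix.one_fin_two]
      simp⟩

private theorem I2Ping_J_sq {K : Type} [Field K] (z : Kˣ) : I2Ping_J z ^ 2 = 1 := by
  rw [pow_two]
  exact Units.ext (I2Ping_J z).mul_inv

section val

variable {K : Type} [Field K] (v : Valuation K (WithZero (Multiplicative ℤ)))

/-- The two sets of vectors. -/
private def I2Ping_X : Bool → Set (Fin 2 → K)
  | false => {w | w ≠ 0 ∧ v (w 0) = v (w 1)}
  | true => {w | v (w 0) ≠ v (w 1)}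

private theorem I2Ping_ne {w : Fin 2 → K} {i : Bool} (h : w ∈ I2Ping_X v i) : w ≠ 0 := by
  cases i
  · exact h.1
  · rintro rfl
    exact h rfl

private theorem I2Ping_disj {w : Fin 2 → K} {i : Bool} (h : w ∈ I2Ping_X v i)
    (h' : w ∈ I2Ping_X v (!i)) : False := by
  cases i
  · exact h' h.2
  · exact h h'.2

private theorem I2Ping_nonempty (i : Bool) : ∃ w, w ∈ I2Ping_X v i := by
  cases i
  · refine ⟨![1, 1], ?_, rfl⟩
    intro h
    exact one_ne_zero (congrFun h 0)
  · refine ⟨![1, 0], ?_⟩
    change v 1 ≠ v 0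
    rw [map_one, map_zero]
    exact one_ne_zero

private theorem I2Ping_smul {w : Fin 2 → K} {i : Bool} (m : K) (hm : m ≠ 0)
    (h : w ∈ I2Ping_X v i) : m • w ∈ I2Ping_X v i := by
  have hv : v m ≠ 0 := (Valuation.ne_zero_iff v).2 hm
  cases i
  · refine ⟨smul_ne_zero hm h.1, ?_⟩
    change v (m * w 0) = v (m * w 1)
    rw [map_mul, map_mul, h.2]
  · change v (m * w 0) ≠ v (m * w 1)
    rw [map_mul, map_mul]
    exact fun h1 => h (mul_left_cancel₀ hv h1)

/-- The matrices `my z` map `X true` to `X false`. -/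
private theorem I2Ping_false {w : Fin 2 → K} (h : w ∈ I2Ping_X v true) (z : K)
    (h1 : v (2 - z) = 1) (h2 : v (2 * z - 2) = 1) (h3 : v (1 - z) = 1) (h4 : v (2 * z - 1) = 1) :
    (my z).mulVec w ∈ I2Ping_X v false := by
  have e0 : (my z).mulVec w 0 = (2 - z) * w 0 + (2 * z - 2) * w 1 := by
    unfold my
    simp [Matrix.mulVec, Matrix.vecHead, Matrix.vecTail]
  have e1 : (my z).mulVec w 1 = (1 - z) * w 0 + (2 * z - 1) * w 1 := by
    unfold my
    simp [Matrix.mulVec, Matrix.vecHead, Matrix.vecTail]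
  have key : ∀ a b : K, v a = 1 → v b = 1 → v (a * w 0 + b * w 1) = max (v (w 0)) (v (w 1)) := by
    intro a b ha hb
    have h5 : v (a * w 0) ≠ v (b * w 1) := by
      rw [map_mul, map_mul, ha, hb, one_mul, one_mul]
      exact h
    rw [Valuation.map_add_of_distinct_val v h5, map_mul, map_mul, ha, hb, one_mul, one_mul]
  have h6 : max (v (w 0)) (v (w 1)) ≠ 0 := by
    intro h7
    have h8 : v (w 0) = 0 := le_zero_iff.1 (h7 ▸ le_max_left _ _)
    have h9 : v (w 1) = 0 := le_zero_iff.1 (h7 ▸ le_max_right _ _)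
    exact h (h8.trans h9.symm)
  refine ⟨?_, ?_⟩
  · intro h7
    have h8 := congrArg v (congrFun h7 0)
    rw [e0, key _ _ h1 h2, Pi.zero_apply, map_zero] at h8
    exact h6 h8
  · rw [e0, e1, key _ _ h1 h2, key _ _ h3 h4]

end val

/-- A cyclic group which is infinite or has at least three elements. -/
private theorem I2Ping_three (k : ℕ) (hk : k = 0 ∨ 3 ≤ k) (a : Multiplicative (ZMod k)) :
    ∃ u : Multiplicative (ZMod k), u ≠ 1 ∧ u * a ≠ 1 := by
  have h1 : (1 : ZMod k) ≠ 0 := by
    intro h
    have h2 : ((1 : ℕ) : ZMod k) = 0 := by rwa [Nat.cast_one]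
    have h3 := (ZMod.natCast_eq_zero_iff 1 k).1 h2
    have h4 := Nat.le_of_dvd one_pos h3
    rcases hk with rfl | hk
    · simp at h3
    · omega
  have h2 : (2 : ZMod k) ≠ 0 := by
    intro h
    have h2 : ((2 : ℕ) : ZMod k) = 0 := by exact_mod_cast h
    have h3 := (ZMod.natCast_eq_zero_iff 2 k).1 h2
    have h4 := Nat.le_of_dvd two_pos h3
    rcases hk with rfl | hk
    · simp at h3
    · omega
  by_cases h3 : Multiplicative.ofAdd (1 : ZMod k) * a = 1
  · refine ⟨Multiplicative.ofAdd (2 : ZMod k), fun h => h2 (Multiplicative.ofAdd.injective h),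
      fun h => ?_⟩
    have h4 : Multiplicative.ofAdd (1 : ZMod k) = Multiplicative.ofAdd (2 : ZMod k) :=
      mul_right_cancel (h3.trans h.symm)
    have h5 : (1 : ZMod k) = 2 := Multiplicative.ofAdd.injective h4
    apply h1
    have h6 : (2 : ZMod k) - 1 = 1 := by norm_num
    rw [← h6, ← h5, sub_self]
  · exact ⟨_, fun h => h1 (Multiplicative.ofAdd.injective h), h3⟩

/-- The inclusion of a factor. -/
private def I2Ping_o (c : Bool → ℕ) (b : Bool) : Multiplicative (ZMod (c b)) →* FZ c :=
  CoprodI.of (M := fun b : Bool => Multiplicative (ZMod (c b))) (i := b)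

/-- **The representation of the free product.** -/
theorem qPing : XPing := by
  intro c hc K _ _ v T ζ hT hvT hv hζ
  have hcf : c false ≠ 0 := by
    rcases hc with hc | hc
    · omega
    · omega
  have hζ0 : ζ ≠ 0 := hζ.ne_zero hcf
  have hinj : Function.Injective (algebraMap ℂ K) := (algebraMap ℂ K).injective
  have hζK : algebraMap ℂ K ζ ≠ 0 := fun h => hζ0 (hinj (h.trans (map_zero _).symm))
  have hnorm : ‖ζ‖ = 1 := hζ.norm'_eq_one hcf
  have h2K : algebraMap ℂ K 2 = 2 := map_ofNat _ 2
  let g : Bool → GL (Fin 2) K := fun b => if b then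
    (if c true = 0 then I2Ping_D (Units.mk0 T hT) else I2Ping_J (Units.mk0 T hT)) else
    I2Ping_Y (Units.mk0 _ hζK)
  have hg : ∀ b, g b ^ c b = 1 := by
    intro b
    cases b
    · change I2Ping_Y (Units.mk0 _ hζK) ^ c false = 1
      rw [← map_pow]
      have : Units.mk0 (algebraMap ℂ K ζ) hζK ^ c false = 1 := by
        refine Units.ext ?_
        rw [Units.val_pow_eq_pow_val, Units.val_mk0, ← map_pow, hζ.pow_eq_one, map_one,
          Units.val_one]
      rw [this, map_one]
    · change (if c true = 0 then I2Ping_D (Units.mk0 T hT) else I2Ping_J (Units.mk0 T hT)) ^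
        c true = 1
      by_cases h : c true = 0
      · rw [h, pow_zero]
      · have h2 : c true = 2 := by
          rcases hc with hc | hc
          · exact absurd hc.1 h
          · exact hc.1
        rw [if_neg h, h2, I2Ping_J_sq]
  choose φ hφ using fun b => I2Ping_hom (c b) (g b) (hg b)
  let τ : FZ c →* GL (Fin 2) K := CoprodI.lift φ
  have hτ : ∀ b (a : Multiplicative (ZMod (c b))),
      τ (CoprodI.of (M := fun b : Bool => Multiplicative (ZMod (c b))) a) = φ b a := by
    intro b a
    exact CoprodI.lift_of _ _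
  have hτg : ∀ b, τ (gz c b) = g b := by
    intro b
    exact (hτ b _).trans (hφ b)
  -- the letters
  have hlet : ∀ b (a : Multiplicative (ZMod (c b))), a ≠ 1 → ∀ w ∈ I2Ping_X v (!b),
      (φ b a).1.mulVec w ∈ I2Ping_X v b := by
    intro b a ha w hw
    obtain ⟨n, rfl⟩ := I2Ping_gen (c b) a
    rw [map_zpow, hφ]
    cases b
    · have e1 : g false ^ n = I2Ping_Y (Units.mk0 _ hζK ^ n) := (map_zpow _ _ _).symm
      rw [e1]
      change (my ((Units.mk0 (algebraMap ℂ K ζ) hζK ^ n : Kˣ) : K)).mulVec w ∈ _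
      have e2 : ((Units.mk0 (algebraMap ℂ K ζ) hζK ^ n : Kˣ) : K) = algebraMap ℂ K (ζ ^ n) := by
        rw [Units.val_zpow_eq_zpow_val, Units.val_mk0, map_zpow₀]
      have e3 : ζ ^ n ≠ 1 := by
        intro h
        have h1 := (hζ.zpow_eq_one_iff_dvd n).1 h
        apply ha
        rw [← ofAdd_zsmul, zsmul_one, (ZMod.intCast_zmod_eq_zero_iff_dvd n (c false)).2 h1]
        rfl
      have e4 : ‖ζ ^ n‖ = 1 := by rw [norm_zpow, hnorm, one_zpow]
      have e5 : (2 : ℂ) - ζ ^ n ≠ 0 := by
        intro h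
        rw [← sub_eq_zero.1 h] at e4
        norm_num at e4
      have e6 : 2 * ζ ^ n - 1 ≠ 0 := by
        intro h
        have h1 := congrArg norm (sub_eq_zero.1 h)
        rw [norm_mul, e4] at h1
        norm_num at h1
      have e7 : 2 * ζ ^ n - 2 ≠ 0 := by
        intro h
        apply e3
        linear_combination (1 / 2) * h
      have e8 : 1 - ζ ^ n ≠ 0 := by
        intro h
        apply e3
        linear_combination -h
      rw [e2]
      refine I2Ping_false v hw _ ?_ ?_ ?_ ?_
      · rw [← hv _ e5]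
        congr 1
        simp [h2K]
      · rw [← hv _ e7]
        congr 1
        simp [h2K]
      · rw [← hv _ e8]
        congr 1
        simp
      · rw [← hv _ e6]
        congr 1
        simp [h2K]
    · have hw' : w ≠ 0 ∧ v (w 0) = v (w 1) := hw
      have hw0 : v (w 0) ≠ 0 := by
        intro h
        have h1 := h
        rw [hw'.2] at h1
        have h2 := (Valuation.zero_iff v).1 h
        have h3 := (Valuation.zero_iff v).1 h1
        apply hw'.1
        funext i
        fin_cases i
        · exact h2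
        · exact h3
      have hvT0 : v T ≠ 0 := (Valuation.ne_zero_iff v).2 hT
      by_cases h : c true = 0
      · have hn : n ≠ 0 := by
          rintro rfl
          exact ha (zpow_zero _)
        have e1 : g true ^ n = I2Ping_D (Units.mk0 T hT ^ n) := by
          rw [map_zpow]
          change (if c true = 0 then I2Ping_D (Units.mk0 T hT) else _) ^ n = _
          rw [if_pos h]
        rw [e1]
        change v ((!![((Units.mk0 T hT ^ n : Kˣ) : K), 0; 0, 1]).mulVec w 0) ≠
          v ((!![((Units.mk0 T hT ^ n : Kˣ) : K), 0; 0, 1]).mulVec w 1)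
        have e2 : (!![((Units.mk0 T hT ^ n : Kˣ) : K), 0; 0, 1]).mulVec w 0 = T ^ n * w 0 := by
          simp [Matrix.mulVec, Matrix.vecHead, Matrix.vecTail]
        have e3 : (!![((Units.mk0 T hT ^ n : Kˣ) : K), 0; 0, 1]).mulVec w 1 = w 1 := by
          simp [Matrix.mulVec, Matrix.vecHead, Matrix.vecTail]
        rw [e2, e3, map_mul, map_zpow₀, ← hw'.2]
        intro h1
        have h2 : v T ^ n = 1 := by
          have h3 : v T ^ n * v (w 0) = 1 * v (w 0) := by rw [h1, one_mul]
          exact mul_right_cancel₀ hw0 h3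
        exact hn ((zpow_eq_one_iff_right₀ zero_le hvT).1 h2)
      · have h2 : c true = 2 := by
          rcases hc with hc | hc
          · exact absurd hc.1 h
          · exact hc.1
        have e0 : (Multiplicative.ofAdd (1 : ZMod (c true))) ^ n =
            Multiplicative.ofAdd (1 : ZMod (c true)) := by
          generalize hk : (Multiplicative.ofAdd (1 : ZMod (c true))) ^ n = a at ha
          clear hk
          revert a
          rw [h2]
          decide
        have e1 : g true ^ n = I2Ping_J (Units.mk0 T hT) := by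
          rw [← hφ, ← map_zpow, e0, hφ]
          change (if c true = 0 then _ else _) = _
          rw [if_neg h]
        rw [e1]
        change v ((!![0, T; ((Units.mk0 T hT)⁻¹ : Kˣ).val, 0]).mulVec w 0) ≠
          v ((!![0, T; ((Units.mk0 T hT)⁻¹ : Kˣ).val, 0]).mulVec w 1)
        have e2 : (!![0, T; ((Units.mk0 T hT)⁻¹ : Kˣ).val, 0]).mulVec w 0 = T * w 1 := by
          simp [Matrix.mulVec, Matrix.vecHead, Matrix.vecTail]
        have e3 : (!![0, T; ((Units.mk0 T hT)⁻¹ : Kˣ).val, 0]).mulVec w 1 = T⁻¹ * w 0 := by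
          simp [Matrix.mulVec, Matrix.vecHead, Matrix.vecTail]
        rw [e2, e3, map_mul, map_mul, map_inv₀, ← hw'.2]
        intro h1
        have h3 := mul_right_cancel₀ hw0 h1
        have h4 : v T ^ (2 : ℤ) = 1 := by
          rw [zpow_two]
          nth_rewrite 1 [h3]
          exact inv_mul_cancel₀ hvT0
        have h5 := (zpow_eq_one_iff_right₀ zero_le hvT).1 h4
        norm_num at h5
  -- words
  have hword : ∀ (n : ℕ) (i j : Bool) (x : FZ c),
      RW (fun b : Bool => Multiplicative (ZMod (c b))) i j n x → ∀ w ∈ I2Ping_X v (!j),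
      (τ x).1.mulVec w ∈ I2Ping_X v i := by
    intro n
    induction n with
    | zero =>
      intro i j x hx
      exact absurd hx.pos (lt_irrefl 0)
    | succ n ih =>
      intro i j x hx w hw
      rcases hx.left with ⟨rfl, h2, a, ha, rfl⟩ | ⟨a, g', n', ha, h2, h3, rfl⟩
      · rw [hτ]
        exact hlet i a ha w hw
      · have hn : n' = n := by omega
        subst hn
        have h4 := ih (!i) j g' h3 w hw
        have h5 := hlet i a ha _ h4
        rw [map_mul, hτ]
        change ((φ i a).1 * (τ g').1).mulVec w ∈ _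
        rwa [← Matrix.mulVec_mulVec]
  have hsc : ∀ (n : ℕ) (i : Bool) (x : FZ c) (m : K),
      RW (fun b : Bool => Multiplicative (ZMod (c b))) i i n x → (τ x).1 = m • 1 → False := by
    intro n i x m hx hm
    have hm0 : m ≠ 0 := by
      rintro rfl
      rw [zero_smul] at hm
      have h1 := (τ x).mul_inv
      rw [hm, zero_mul] at h1
      exact zero_ne_one h1
    obtain ⟨w, hw⟩ := I2Ping_nonempty v (!i)
    have h1 := hword n i i x hx w hw
    rw [hm, Matrix.smul_mulVec, Matrix.one_mulVec] at h1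
    exact I2Ping_disj v h1 (I2Ping_smul v m hm0 hw)
  have hsc2 : ∀ (n : ℕ) (i : Bool), (c i = 0 ∨ 3 ≤ c i) → ∀ (x : FZ c) (m : K),
      RW (fun b : Bool => Multiplicative (ZMod (c b))) i (!i) n x → (τ x).1 = m • 1 → False := by
    intro n i hi x m hx hm
    rcases hx.left with ⟨h1, _⟩ | ⟨a, g', n', ha, h2, h3, rfl⟩
    · cases i <;> simp at h1
    obtain ⟨u, hu, hua⟩ := I2Ping_three (c i) hi a
    have h4 : RW (fun b : Bool => Multiplicative (ZMod (c b))) i (!i) (1 + n')
        (I2Ping_o c i (u * a) * g') :=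
      (RW.single (M := fun b : Bool => Multiplicative (ZMod (c b))) hua).mul
        (by cases i <;> decide) h3
    have h5 := h4.mul (by cases i <;> decide) (RW.single (M := fun b : Bool =>
      Multiplicative (ZMod (c b))) (i := i) (inv_ne_one.2 hu))
    refine hsc _ i _ m h5 ?_
    have e1 : I2Ping_o c i (u * a) * g' * I2Ping_o c i u⁻¹ =
        I2Ping_o c i u * (I2Ping_o c i a * g') * (I2Ping_o c i u)⁻¹ := by
      rw [map_mul, map_inv]
      simp only [mul_assoc]
    change (τ (I2Ping_o c i (u * a) * g' * I2Ping_o c i u⁻¹)).1 = _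
    rw [e1, map_mul, map_mul, map_inv]
    change (τ (I2Ping_o c i u)).1 * (τ (I2Ping_o c i a * g')).1 *
      ((τ (I2Ping_o c i u))⁻¹).1 = _
    have hm' : (τ (I2Ping_o c i a * g')).1 = m • 1 := hm
    rw [hm', mul_smul_comm, smul_mul_assoc, mul_one]
    congr 1
    exact (τ (I2Ping_o c i u)).mul_inv
  refine ⟨τ, ?_, ?_, ?_⟩
  · rw [hτg]
    change (if c true = 0 then I2Ping_D (Units.mk0 T hT) else I2Ping_J (Units.mk0 T hT)).1 = _
    unfold mx
    split_ifs
    · rfl
    · rfl
  · rw [hτg]
    rfl
  · rintro x ⟨m, hm⟩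
    rcases RW.exists x with h | ⟨i, j, n, hx⟩
    · exact h
    exfalso
    by_cases hij : i = j
    · subst hij
      exact hsc n i x m hx hm
    have hinv : (τ x⁻¹).1 = m⁻¹ • 1 := by
      have hm0 : m ≠ 0 := by
        rintro rfl
        rw [zero_smul] at hm
        have h1 := (τ x).mul_inv
        rw [hm, zero_mul] at h1
        exact zero_ne_one h1
      have h1 := (τ x).mul_inv
      rw [hm, smul_mul_assoc, one_mul] at h1
      rw [map_inv, ← h1, smul_smul, inv_mul_cancel₀ hm0, one_smul]
    rcases hc with hc | hc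
    · cases i <;> cases j
      · exact hij rfl
      · exact hsc2 n true (Or.inl hc.1) x⁻¹ _ hx.inv hinv
      · exact hsc2 n true (Or.inl hc.1) x m hx hm
      · exact hij rfl
    · cases i <;> cases j
      · exact hij rfl
      · exact hsc2 n false (Or.inr hc.2.1) x m hx hm
      · exact hsc2 n false (Or.inr hc.2.1) x⁻¹ _ hx.inv hinv
      · exact hij rfl

end Pool.Agent.Lib.MP_97567f_al
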