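import Pool.Agent.Lib.MP_97567f_al.I2.Spec

/-!
# MP_97567f_al, type I2(m): powers of elements of infinite order in a free product
-/

set_option autoImplicit false

namespace Pool.Agent.Lib.MP_97567f_al

open Monoid

variable {M : Bool → Type} [∀ i, Group (M i)]

private theorem I2Pow_pow {i j : Bool} (hij : i ≠ j) {m : ℕ} {g : CoprodI M}
    (h : RW M i j m g) (n : ℕ) : ∃ k, RW M i j k (g ^ (n + 1)) := by
  induction n with
  | zero => exact ⟨m, by rw [zero_add, pow_one]; exact h⟩
  | succ n ih =>
    obtain ⟨k, hk⟩ := ih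
    refine ⟨k + m, ?_⟩
    rw [pow_succ]
    exact hk.mul hij.symm h

private theorem I2Pow_id {G : Type} [Group G] (x y z : G) (k : ℕ) :
    (x * (y * z)) ^ (k + 1) = x * y * (z * x * y) ^ k * z := by
  induction k with
  | zero => simp [mul_assoc]
  | succ k ih =>
    rw [pow_succ, ih, pow_succ (z * x * y) k]
    group

private theorem I2Pow_main (m : ℕ) : ∀ (i : Bool) (g : CoprodI M), RW M i i m g →
    (∀ n : ℕ, 0 < n → g ^ n ≠ 1) → ∀ n : ℕ, 0 < n → ∃ m', m ≤ m' ∧ RW M i i m' (g ^ n) := by
  induction m using Nat.strong_induction_on with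
  | _ m ih =>
    intro i g h hinf n hn
    obtain ⟨n, rfl⟩ : ∃ k, n = k + 1 := ⟨n - 1, by omega⟩
    rcases h.left with ⟨-, hm, a, ha, rfl⟩ | ⟨a, g1, n1, ha, hm, h1, rfl⟩
    · refine ⟨1, hm.le, ?_⟩
      have h3 := hinf (n + 1) hn
      rw [← map_pow] at h3 ⊢
      refine RW.single ?_
      intro h4
      rw [h4, map_one] at h3
      exact h3 rfl
    · rcases h1.right with ⟨hii, -⟩ | ⟨b, g2, n2, hb, hn1, h2, rfl⟩
      · exact absurd hii (by simp)
      · by_cases hba : b * a = 1
        · have hb' : CoprodI.of b = (CoprodI.of a : CoprodI M)⁻¹ := by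
            rw [← map_inv, eq_inv_of_mul_eq_one_left hba]
          have e : ∀ k : ℕ, (CoprodI.of a * (g2 * CoprodI.of b)) ^ k =
              CoprodI.of a * g2 ^ k * CoprodI.of b := by
            intro k
            rw [hb', ← mul_assoc, conj_pow]
          have hinf2 : ∀ k : ℕ, 0 < k → g2 ^ k ≠ 1 := by
            intro k hk h3
            apply hinf k hk
            rw [e, h3, mul_one, hb', mul_inv_cancel]
          obtain ⟨m', hm', h3⟩ := ih n2 (by omega) (!i) g2 h2 hinf2 (n + 1) hn
          refine ⟨1 + m' + 1, by omega, ?_⟩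
          rw [e]
          exact ((RW.single ha).mul (by simp) h3).mul (by simp) (RW.single hb)
        · have hd : RW M i (!i) (1 + n2) (CoprodI.of b * CoprodI.of a * g2) := by
            rw [← map_mul]
            exact (RW.single hba).mul (by simp) h2
          have hag : RW M i (!i) (1 + n2) (CoprodI.of a * g2) :=
            (RW.single ha).mul (by simp) h2
          rw [I2Pow_id]
          rcases n with _ | n
          · refine ⟨1 + n2 + 1, by omega, ?_⟩
            rw [pow_zero, mul_one]
            exact hag.mul (by simp) (RW.single hb)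
          · obtain ⟨k, hk⟩ := I2Pow_pow (by simp) hd n
            refine ⟨1 + n2 + k + 1, by omega, ?_⟩
            exact (hag.mul (by simp) hk).mul (by simp) (RW.single hb)

theorem qPow : XPow := fun _ _ i m g h hinf n hn => I2Pow_main m i g h hinf n hn

end Pool.Agent.Lib.MP_97567f_al
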