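import Pool.Agent.Lib.MP_97567f_al.I2.Spec

/-!
# MP_97567f_al, type I2(m): the projective kernel is preserved
-/

set_option autoImplicit false

namespace Pool.Agent.Lib.MP_97567f_al

/-- Matrices as functions on pairs of indices. -/
private def I2Pres_flat (F : Type) [Field F] (ι : Type) : Matrix ι ι F →ₗ[F] (ι × ι → F) where
  toFun m := fun q => m q.1 q.2
  map_add' _ _ := rfl
  map_smul' _ _ := rfl

private theorem I2Pres_ker (F : Type) [Field F] (ι : Type) :
    LinearMap.ker (I2Pres_flat F ι) = ⊥ := by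
  rw [LinearMap.ker_eq_bot]
  intro m m' h
  ext i j
  exact congrFun h (i, j)

/-- A family of matrices indexed by the pairs is independent iff the determinant of the entries is not zero. -/
private theorem I2Pres_det (F : Type) [Field F] (ι : Type) [Fintype ι] [DecidableEq ι]
    (M : ι × ι → Matrix ι ι F) : LinearIndependent F M ↔
      (Matrix.of fun p q : ι × ι => M p q.1 q.2).det ≠ 0 := by
  rw [← LinearMap.linearIndependent_iff (I2Pres_flat F ι) (I2Pres_ker F ι)]
  have h := Matrix.linearIndependent_rows_iff_isUnit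
    (A := Matrix.of fun p q : ι × ι => M p q.1 q.2)
  rw [Matrix.isUnit_iff_isUnit_det, isUnit_iff_ne_zero] at h
  exact h

/-- Scalar matrices, in terms of the entries. -/
private def I2Pres_Sc {ι R : Type} [CommRing R] (M : Matrix ι ι R) : Prop :=
  (∀ i k, i ≠ k → M i k = 0) ∧ ∀ i k, M i i = M k k

private theorem I2Pres_Sc_iff {ι K : Type} [DecidableEq ι] [Field K] (M : Matrix ι ι K) :
    (∃ m : K, M = m • (1 : Matrix ι ι K)) ↔ I2Pres_Sc M := by
  constructor
  · rintro ⟨m, rfl⟩
    refine ⟨fun i k h => ?_, fun i k => ?_⟩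
    · rw [Matrix.smul_apply, Matrix.one_apply_ne h, smul_zero]
    · rw [Matrix.smul_apply, Matrix.smul_apply, Matrix.one_apply_eq, Matrix.one_apply_eq]
  · rintro ⟨h1, h2⟩
    rcases isEmpty_or_nonempty ι with he | ⟨⟨i0⟩⟩
    · exact ⟨0, Matrix.ext fun i => isEmptyElim i⟩
    · refine ⟨M i0 i0, ?_⟩
      ext i k
      by_cases h : i = k
      · subst h
        rw [Matrix.smul_apply, Matrix.one_apply_eq, smul_eq_mul, mul_one]
        exact h2 i i0
      · rw [Matrix.smul_apply, Matrix.one_apply_ne h, smul_zero]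
        exact h1 i k h

private theorem I2Pres_Sc_map {ι R S : Type} [CommRing R] [CommRing S] {f : R →+* S}
    (hf : Function.Injective f) (M : Matrix ι ι R) : I2Pres_Sc (M.map f) ↔ I2Pres_Sc M := by
  constructor
  · rintro ⟨h1, h2⟩
    refine ⟨fun i k h => hf ?_, fun i k => hf (h2 i k)⟩
    rw [map_zero]
    exact h1 i k h
  · rintro ⟨h1, h2⟩
    refine ⟨fun i k h => ?_, fun i k => congrArg f (h2 i k)⟩
    rw [Matrix.map_apply, h1 i k h, map_zero]

private theorem I2Pres_comm {ι K : Type} [Fintype ι] [DecidableEq ι] [Field K]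
    {s : Set (Matrix ι ι K)} (hs : Submodule.span K s = ⊤) {M : Matrix ι ι K}
    (h : ∀ Y ∈ s, Y * M = M * Y) : I2Pres_Sc M := by
  have hall : ∀ Y : Matrix ι ι K, Y * M = M * Y := by
    intro Y
    have hY : Y ∈ Submodule.span K s := by
      rw [hs]
      trivial
    induction hY using Submodule.span_induction with
    | mem Y hY => exact h Y hY
    | zero => rw [Matrix.zero_mul, Matrix.mul_zero]
    | add Y Z _ _ h1 h2 => rw [Matrix.add_mul, Matrix.mul_add, h1, h2]
    | smul c Y _ h1 => rw [Matrix.smul_mul, Matrix.mul_smul, h1]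
  obtain ⟨m, hm⟩ := Matrix.mem_range_scalar_of_commute_single (M := M) fun i k _ => hall _
  rw [← I2Pres_Sc_iff]
  refine ⟨m, ?_⟩
  rw [← hm, Matrix.scalar_apply, Matrix.smul_one_eq_diagonal]

/-- The spanning property is transported by a valuation ring. -/
private theorem I2Pres_span {A ι K : Type} [Fintype ι] [DecidableEq ι] [Field K]
    {R : Type} [CommRing R] (e : R →+* K) (he : Function.Injective e)
    {O : Type} [CommRing O] {κ : Type} [Field κ] (res : O →+* κ) (j : R →+* κ)
    (hj : Function.Injective j) {F : Type} [Field F] (i : O →+* F) (hi : Function.Injective i)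
    (mR : A → Matrix ι ι R) (mO : A → Matrix ι ι O) (hm : ∀ x, (mO x).map res = (mR x).map j)
    (s : Set A) (hs : Submodule.span K {Y : Matrix ι ι K | ∃ x ∈ s, Y = (mR x).map e} = ⊤) :
    Submodule.span F {Y : Matrix ι ι F | ∃ x ∈ s, Y = (mO x).map i} = ⊤ := by
  classical
  have hset : {Y : Matrix ι ι K | ∃ x ∈ s, Y = (mR x).map e} =
      Set.range fun x : s => (mR x).map e := by
    ext Y
    constructor
    · rintro ⟨x, hx, rfl⟩
      exact ⟨⟨x, hx⟩, rfl⟩
    · rintro ⟨⟨x, hx⟩, rfl⟩
      exact ⟨x, hx, rfl⟩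
  obtain ⟨κ', a, ha1, ha2, ha3⟩ := exists_linearIndependent' K (fun x : s => (mR x).map e)
  rw [← hset, hs] at ha2
  have hfin : Finite κ' := ha3.finite
  have := Fintype.ofFinite κ'
  have hb : Module.finrank K (Matrix ι ι K) = Fintype.card κ' :=
    Module.finrank_eq_card_basis (Module.Basis.mk ha3 (by rw [ha2]))
  have hcard : Fintype.card (ι × ι) = Fintype.card κ' := by
    rw [← hb, Module.finrank_matrix, Module.finrank_self, mul_one, Fintype.card_prod]
  obtain ⟨u⟩ := Fintype.card_eq.1 hcard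
  have h1 : LinearIndependent K (fun p : ι × ι => (mR (a (u p))).map e) :=
    ha3.comp u u.injective
  rw [I2Pres_det] at h1
  have h2 : (Matrix.of fun p q : ι × ι => ((mR (a (u p))).map e) q.1 q.2).det =
      e (Matrix.of fun p q : ι × ι => (mR (a (u p))) q.1 q.2).det := by
    rw [RingHom.map_det]
    rfl
  rw [h2] at h1
  have h3 : (Matrix.of fun p q : ι × ι => (mR (a (u p))) q.1 q.2).det ≠ 0 := by
    intro h0
    rw [h0, map_zero] at h1
    exact h1 rfl
  have h4 : res (Matrix.of fun p q : ι × ι => (mO (a (u p))) q.1 q.2).det =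
      j (Matrix.of fun p q : ι × ι => (mR (a (u p))) q.1 q.2).det := by
    rw [RingHom.map_det, RingHom.map_det]
    congr 1
    ext p q
    exact congrFun (congrFun (hm (a (u p))) q.1) q.2
  have h5 : (Matrix.of fun p q : ι × ι => (mO (a (u p))) q.1 q.2).det ≠ 0 := by
    intro h0
    rw [h0, map_zero] at h4
    exact h3 (hj (by rw [← h4, map_zero]))
  have h6 : (Matrix.of fun p q : ι × ι => ((mO (a (u p))).map i) q.1 q.2).det ≠ 0 := by
    have h7 : (Matrix.of fun p q : ι × ι => ((mO (a (u p))).map i) q.1 q.2).det =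
        i (Matrix.of fun p q : ι × ι => (mO (a (u p))) q.1 q.2).det := by
      rw [RingHom.map_det]
      rfl
    rw [h7]
    exact fun h0 => h5 (hi (by rw [h0, map_zero]))
  have h8 := (I2Pres_det F ι (fun p : ι × ι => (mO (a (u p))).map i)).2 h6
  have h9 : Fintype.card (ι × ι) = Module.finrank F (Matrix ι ι F) := by
    rw [Module.finrank_matrix, Module.finrank_self, mul_one, Fintype.card_prod]
  have h10 := h8.span_eq_top_of_card_eq_finrank' h9
  rw [eq_top_iff, ← h10]
  refine Submodule.span_mono ?_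
  rintro _ ⟨p, rfl⟩
  exact ⟨a (u p), (a (u p)).2, rfl⟩

theorem qPres (h : SComp) : XPres := by
  intro A _ hA ι _ _ K _ _ ρ A1 hspan hcom
  -- the ring generated by the entries
  let s : Set K := Set.range fun p : A × ι × ι => (ρ p.1).1 p.2.1 p.2.2
  let R : Subalgebra ℂ K := Algebra.adjoin ℂ s
  have hval : Function.Injective (algebraMap R K) := Subtype.val_injective
  let τ0 : A → Matrix ι ι R := fun x => Matrix.of fun i k =>
    ⟨(ρ x).1 i k, Algebra.subset_adjoin ⟨(x, i, k), rfl⟩⟩
  have hτ0 : ∀ x, (τ0 x).map (algebraMap R K) = (ρ x).1 := fun x => rfl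
  have hinj : Function.Injective fun M : Matrix ι ι R => M.map (algebraMap R K) :=
    Matrix.map_injective hval
  let τ : A →* Matrix ι ι R :=
    { toFun := τ0
      map_one' := by
        apply hinj
        change (τ0 1).map (algebraMap R K) = (1 : Matrix ι ι R).map (algebraMap R K)
        rw [hτ0, map_one, Matrix.map_one _ (map_zero _) (map_one _)]
        rfl
      map_mul' := by
        intro x y
        apply hinj
        change (τ0 (x * y)).map (algebraMap R K) = (τ0 x * τ0 y).map (algebraMap R K)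
        rw [hτ0, Matrix.map_mul, hτ0, hτ0, map_mul]
        rfl }
  let ρR : A →* GL ι R := τ.toHomUnits
  have hρR : ∀ x, (ρR x).1 = τ0 x := fun x => rfl
  have hgen : Algebra.adjoin ℂ (Set.range fun p : A × ι × ι => (ρR p.1).1 p.2.1 p.2.2) =
      (⊤ : Subalgebra ℂ R) := by
    rw [← Algebra.adjoin_adjoin_coe_preimage (R := ℂ) (s := s)]
    congr 1
    ext ⟨r, hr⟩
    constructor
    · rintro ⟨p, hp⟩
      exact ⟨p, congrArg Subtype.val hp⟩
    · rintro ⟨p, hp⟩
      exact ⟨p, Subtype.ext hp⟩
  obtain ⟨F, iF, iC, iA, O, j, ρ', H, hH, hj, -, hρ, hσ⟩ := h A hA ι R ρR hgen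
  have hO : Function.Injective (algebraMap O F) := Subtype.val_injective
  have hspF : Submodule.span F {Y : Matrix ι ι F | ∃ x ∈ (A1 : Set A),
      Y = ((ρ' x).1).map (algebraMap O F)} = ⊤ :=
    I2Pres_span (algebraMap R K) hval (IsLocalRing.residue O) j hj (algebraMap O F) hO τ0
      (fun x => (ρ' x).1) (fun x => hρ x) A1 hspan
  have key : ∀ x, (∃ m : K, (ρ x).1 = m • (1 : Matrix ι ι K)) ↔
      I2Pres_Sc (((ρ' x).1).map (algebraMap O F)) := by
    intro x
    constructor
    · intro hx
      refine I2Pres_comm hspF ?_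
      rintro _ ⟨a, ha, rfl⟩
      have h1 : ρ' a * ρ' x = ρ' x * ρ' a := by
        rw [← map_mul, ← map_mul, hcom x hx a ha]
      have h2 : (ρ' a).1 * (ρ' x).1 = (ρ' x).1 * (ρ' a).1 := congrArg Units.val h1
      rw [← Matrix.map_mul, ← Matrix.map_mul, h2]
    · intro hx
      rw [I2Pres_Sc_map hO] at hx
      have h1 : I2Pres_Sc (((ρ' x).1).map (IsLocalRing.residue O)) := by
        obtain ⟨h2, h3⟩ := hx
        refine ⟨fun i k hik => ?_, fun i k => congrArg (IsLocalRing.residue O) (h3 i k)⟩
        rw [Matrix.map_apply, h2 i k hik, map_zero]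
      rw [hρ, I2Pres_Sc_map hj, ← I2Pres_Sc_map hval] at h1
      exact (I2Pres_Sc_iff _).2 h1
  refine ⟨H, hH, fun α hα x => ?_⟩
  obtain ⟨σ, hσ'⟩ := hσ α hα
  rw [key, key, hσ']
  exact I2Pres_Sc_map (f := (σ : F →+* F)) σ.injective _

end Pool.Agent.Lib.MP_97567f_al
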