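import Pool.Agent.Lib.MP_97567f_al.I2.Spec

/-!
# MP_97567f_al, type I2(m): the matrices span
-/

set_option autoImplicit false

namespace Pool.Agent.Lib.MP_97567f_al

open Monoid

private theorem I2Span_mul {G K : Type} [Group G] [Field K] (τ : G →* GL (Fin 2) K)
    {A B : Matrix (Fin 2) (Fin 2) K}
    (hA : A ∈ Submodule.span K (Set.range fun g => (τ g).1))
    (hB : B ∈ Submodule.span K (Set.range fun g => (τ g).1)) :
    A * B ∈ Submodule.span K (Set.range fun g => (τ g).1) := by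
  have h := Submodule.mul_mem_mul hA hB
  rw [Submodule.span_mul_span] at h
  refine Submodule.span_mono ?_ h
  rintro _ ⟨_, ⟨g, rfl⟩, _, ⟨h, rfl⟩, rfl⟩
  exact ⟨g * h, by simp⟩

private theorem I2Span_diag {K : Type} [Field K] (S : Submodule K (Matrix (Fin 2) (Fin 2) K))
    (hmul : ∀ A B, A ∈ S → B ∈ S → A * B ∈ S) (h1 : (1 : Matrix (Fin 2) (Fin 2) K) ∈ S)
    {T z : K} (hT : T ≠ 1) (hz : z ≠ 1) (h2 : (2 : K) ≠ 0) (hX : !![T, 0; 0, 1] ∈ S)
    (hY : my z ∈ S) : S = ⊤ := by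
  have hT' : T - 1 ≠ 0 := sub_ne_zero.2 hT
  have hz' : 1 - z ≠ 0 := sub_ne_zero.2 hz.symm
  have hz2 : 2 * z - 2 ≠ 0 := by
    have : 2 * z - 2 = -2 * (1 - z) := by ring
    rw [this]
    exact mul_ne_zero (neg_ne_zero.2 h2) hz'
  have e11 : (!![1, 0; 0, 0] : Matrix (Fin 2) (Fin 2) K) ∈ S := by
    have h := S.smul_mem (T - 1)⁻¹ (S.sub_mem hX h1)
    have e : (T - 1)⁻¹ • (!![T, 0; 0, 1] - (1 : Matrix (Fin 2) (Fin 2) K)) = !![1, 0; 0, 0] := by
      rw [Matrix.one_fin_two]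
      ext i j
      fin_cases i <;> fin_cases j <;> simp [hT']
    rwa [e] at h
  have e22 : (!![0, 0; 0, 1] : Matrix (Fin 2) (Fin 2) K) ∈ S := by
    have h := S.sub_mem h1 e11
    have e : (1 : Matrix (Fin 2) (Fin 2) K) - !![1, 0; 0, 0] = !![0, 0; 0, 1] := by
      rw [Matrix.one_fin_two]
      ext i j
      fin_cases i <;> fin_cases j <;> simp
    rwa [e] at h
  have e12 : (!![0, 1; 0, 0] : Matrix (Fin 2) (Fin 2) K) ∈ S := by
    have h := S.smul_mem (2 * z - 2)⁻¹ (hmul _ _ (hmul _ _ e11 hY) e22)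
    have e : (2 * z - 2)⁻¹ • (!![1, 0; 0, 0] * my z * !![0, 0; 0, 1]) = !![0, 1; 0, 0] := by
      rw [my, Matrix.mul_fin_two, Matrix.mul_fin_two]
      ext i j
      fin_cases i <;> fin_cases j <;> simp [hz2]
    rwa [e] at h
  have e21 : (!![0, 0; 1, 0] : Matrix (Fin 2) (Fin 2) K) ∈ S := by
    have h := S.smul_mem (1 - z)⁻¹ (hmul _ _ (hmul _ _ e22 hY) e11)
    have e : (1 - z)⁻¹ • (!![0, 0; 0, 1] * my z * !![1, 0; 0, 0]) = !![0, 0; 1, 0] := by
      rw [my, Matrix.mul_fin_two, Matrix.mul_fin_two]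
      ext i j
      fin_cases i <;> fin_cases j <;> simp [hz']
    rwa [e] at h
  rw [eq_top_iff]
  intro A _
  have h := S.add_mem (S.add_mem (S.smul_mem (A 0 0) e11) (S.smul_mem (A 0 1) e12))
    (S.add_mem (S.smul_mem (A 1 0) e21) (S.smul_mem (A 1 1) e22))
  have e : A 0 0 • (!![1, 0; 0, 0] : Matrix (Fin 2) (Fin 2) K) + A 0 1 • !![0, 1; 0, 0] +
      (A 1 0 • !![0, 0; 1, 0] + A 1 1 • !![0, 0; 0, 1]) = A := by
    ext i j
    fin_cases i <;> fin_cases j <;> simp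
  rwa [e] at h

private theorem I2Span_inv {K : Type} [Field K] (S : Submodule K (Matrix (Fin 2) (Fin 2) K))
    (hmul : ∀ A B, A ∈ S → B ∈ S → A * B ∈ S) (h1 : (1 : Matrix (Fin 2) (Fin 2) K) ∈ S)
    {T z : K} (hT0 : T ≠ 0) (hT : 9 - (T + 2 * T⁻¹) ^ 2 ≠ 0) (hz : z ≠ 1)
    (hX : !![0, T; T⁻¹, 0] ∈ S) (hY : my z ∈ S) : S = ⊤ := by
  have hz' : z - 1 ≠ 0 := sub_ne_zero.2 hz
  have hY' : (!![-1, 2; -1, 2] : Matrix (Fin 2) (Fin 2) K) ∈ S := by
    have h := S.smul_mem (z - 1)⁻¹ (S.sub_mem hY h1)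
    have e : (z - 1)⁻¹ • (my z - (1 : Matrix (Fin 2) (Fin 2) K)) = !![-1, 2; -1, 2] := by
      rw [Matrix.one_fin_two, my]
      ext i j
      fin_cases i <;> fin_cases j <;> simp <;> field_simp <;> ring
    rwa [e] at h
  have hXY : (!![-T, 2 * T; -T⁻¹, 2 * T⁻¹] : Matrix (Fin 2) (Fin 2) K) ∈ S := by
    have h := hmul _ _ hX hY'
    have e : (!![0, T; T⁻¹, 0] : Matrix (Fin 2) (Fin 2) K) * !![-1, 2; -1, 2] =
        !![-T, 2 * T; -T⁻¹, 2 * T⁻¹] := by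
      rw [Matrix.mul_fin_two]
      ext i j
      fin_cases i <;> fin_cases j <;> simp [mul_comm]
    rwa [e] at h
  rw [eq_top_iff]
  intro A _
  obtain ⟨c, d, h3, h4⟩ : ∃ c d : K, 3 * c + (T + 2 * T⁻¹) * d = A 1 1 - A 0 0 ∧
      (T + 2 * T⁻¹) * c + 3 * d = A 0 1 * T⁻¹ - A 1 0 * T := by
    refine ⟨(3 * (A 1 1 - A 0 0) - (T + 2 * T⁻¹) * (A 0 1 * T⁻¹ - A 1 0 * T)) /
      (9 - (T + 2 * T⁻¹) ^ 2), (3 * (A 0 1 * T⁻¹ - A 1 0 * T) -
      (T + 2 * T⁻¹) * (A 1 1 - A 0 0)) / (9 - (T + 2 * T⁻¹) ^ 2), ?_, ?_⟩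
    · rw [mul_div_assoc', mul_div_assoc', ← add_div, div_eq_iff hT]
      ring
    · rw [mul_div_assoc', mul_div_assoc', ← add_div, div_eq_iff hT]
      ring
  have h := S.add_mem (S.add_mem (S.smul_mem (A 0 0 + c + d * T) h1)
    (S.smul_mem (A 1 0 * T + c * T + d) hX)) (S.add_mem (S.smul_mem c hY') (S.smul_mem d hXY))
  have e : (A 0 0 + c + d * T) • (1 : Matrix (Fin 2) (Fin 2) K) +
      (A 1 0 * T + c * T + d) • !![0, T; T⁻¹, 0] +
      (c • !![-1, 2; -1, 2] + d • !![-T, 2 * T; -T⁻¹, 2 * T⁻¹]) = A := by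
    have hi : T * T⁻¹ = 1 := mul_inv_cancel₀ hT0
    rw [Matrix.one_fin_two]
    ext i j
    fin_cases i <;> fin_cases j
    · simp
      ring
    · simp
      linear_combination T * h4 + (A 0 1 - 2 * c) * hi
    · simp
      linear_combination (A 1 0 + c) * hi
    · simp
      linear_combination h3
  rwa [e] at h

theorem qSpan : XSpan := by
  intro c hc K _ _ v T ζ hT0 hT hv hζ τ hx hy
  have h1 : (1 : Matrix (Fin 2) (Fin 2) K) ∈ Submodule.span K (Set.range fun g => (τ g).1) :=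
    Submodule.subset_span ⟨1, by simp⟩
  have hX : mx c T ∈ Submodule.span K (Set.range fun g => (τ g).1) :=
    Submodule.subset_span ⟨_, hx⟩
  have hY : my (algebraMap ℂ K ζ) ∈ Submodule.span K (Set.range fun g => (τ g).1) :=
    Submodule.subset_span ⟨_, hy⟩
  have hmul := fun A B hA hB => I2Span_mul (A := A) (B := B) τ hA hB
  have hne : ∀ a : ℂ, a ≠ 0 → T ≠ algebraMap ℂ K a := by
    intro a ha h
    exact hT (by rw [h]; exact hv a ha)
  have h2 : (2 : K) ≠ 0 := by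
    have := (map_ne_zero (algebraMap ℂ K)).2 (two_ne_zero (α := ℂ))
    rwa [map_ofNat] at this
  have hz : algebraMap ℂ K ζ ≠ 1 := by
    intro h
    have h3 : ζ = 1 := by
      apply (algebraMap ℂ K).injective
      rw [h, map_one]
    have h5 := Nat.le_of_dvd one_pos (hζ.dvd_of_pow_eq_one 1 (by rw [h3, one_pow]))
    rcases hc with ⟨-, h4⟩ | ⟨-, h4, -⟩ <;> omega
  rcases hc with ⟨h3, -⟩ | ⟨h3, -, -⟩
  · rw [mx, if_pos h3] at hX
    exact I2Span_diag _ hmul h1 (by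
      have := hne 1 one_ne_zero
      rwa [map_one] at this) hz h2 hX hY
  · rw [mx, if_neg (by omega)] at hX
    refine I2Span_inv _ hmul h1 hT0 ?_ hz hX hY
    intro h
    have h4 : (T - 1) * (T - -1) * ((T - 2) * (T - -2)) = 0 := by
      have hi : T * T⁻¹ = 1 := mul_inv_cancel₀ hT0
      linear_combination (-T ^ 2) * h - (4 * T ^ 2 + 4 * T * T⁻¹ + 4) * hi
    have n1 := hne 1 one_ne_zero
    have n2 := hne (-1) (by norm_num)
    have n3 := hne 2 two_ne_zero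
    have n4 := hne (-2) (by norm_num)
    rw [map_one] at n1
    rw [map_neg, map_one] at n2
    rw [map_ofNat] at n3
    rw [map_neg, map_ofNat] at n4
    exact mul_ne_zero (mul_ne_zero (sub_ne_zero.2 n1) (sub_ne_zero.2 n2))
      (mul_ne_zero (sub_ne_zero.2 n3) (sub_ne_zero.2 n4)) h4

end Pool.Agent.Lib.MP_97567f_al
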