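import Pool.Agent.Lib.MP_97567f_al.I2.Spec

/-!
# MP_97567f_al, type I2(m): elements of finite order in a free product
-/

set_option autoImplicit false

namespace Pool.Agent.Lib.MP_97567f_al

open Monoid

variable {M : Bool → Type} [∀ i, Group (M i)]

private theorem I2Tor_pow {i j : Bool} (hij : i ≠ j) {m : ℕ} {g : CoprodI M}
    (h : RW M i j m g) (n : ℕ) : ∃ k, RW M i j k (g ^ (n + 1)) := by
  induction n with
  | zero => exact ⟨m, by rw [zero_add, pow_one]; exact h⟩
  | succ n ih =>
    obtain ⟨k, hk⟩ := ih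
    refine ⟨k + m, ?_⟩
    rw [pow_succ]
    exact hk.mul hij.symm h

private theorem I2Tor_conj {G : Type} [Group G] {g u : G} {n : ℕ} (h : g ^ n = 1) :
    (u⁻¹ * g * u) ^ n = 1 := by
  have h1 := conj_pow (a := u⁻¹) (b := g) (i := n)
  rw [inv_inv] at h1
  rw [h1, h, mul_one, inv_mul_cancel]

private theorem I2Tor_main (m : ℕ) : ∀ (i j : Bool) (g : CoprodI M), RW M i j m g →
    ∀ n : ℕ, 0 < n → g ^ n = 1 →
      ∃ (i : Bool) (a : M i) (h : CoprodI M), g = h * CoprodI.of a * h⁻¹ := by
  induction m using Nat.strong_induction_on with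
  | _ m ih =>
    intro i j g h n hn hg
    obtain ⟨n, rfl⟩ : ∃ k, n = k + 1 := ⟨n - 1, by omega⟩
    by_cases hij : i = j
    · subst hij
      rcases h.left with ⟨-, -, a, ha, rfl⟩ | ⟨a, g1, n1, ha, hm, h1, rfl⟩
      · exact ⟨i, a, 1, by simp⟩
      · rcases h1.right with ⟨hii, -⟩ | ⟨b, g2, n2, hb, hn1, h2, rfl⟩
        · exact absurd hii (by simp)
        · have hc : ((CoprodI.of a)⁻¹ * (CoprodI.of a * (g2 * CoprodI.of b)) * CoprodI.of a) ^
              (n + 1) = 1 := I2Tor_conj hg
          have e : (CoprodI.of a)⁻¹ * (CoprodI.of a * (g2 * CoprodI.of b)) * CoprodI.of a =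
              g2 * CoprodI.of (b * a) := by
            rw [map_mul]
            group
          rw [e] at hc
          by_cases hba : b * a = 1
          · rw [hba, map_one, mul_one] at hc
            obtain ⟨i', a', h', h3⟩ := ih n2 (by omega) (!i) (!i) g2 h2 (n + 1) hn hc
            refine ⟨i', a', CoprodI.of a * h', ?_⟩
            have hb' : CoprodI.of b = (CoprodI.of a : CoprodI M)⁻¹ := by
              rw [← map_inv, eq_inv_of_mul_eq_one_left hba]
            rw [hb', h3]
            group
          · obtain ⟨k, hk⟩ := I2Tor_pow (i := !i) (j := i) (by simp)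
              (h2.mul (by simp) (RW.single hba)) n
            exact absurd hc hk.ne_one
    · obtain ⟨k, hk⟩ := I2Tor_pow hij h n
      exact absurd hg hk.ne_one

theorem qTor : XTor := by
  intro M _ g n hn hg
  rcases RW.exists g with rfl | ⟨i, j, m, h⟩
  · exact ⟨false, 1, 1, by simp⟩
  · exact I2Tor_main m i j g h n hn hg

end Pool.Agent.Lib.MP_97567f_al
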