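import Pool.Agent.Lib.MP_97567f_al.I2.Spec

/-!
# MP_97567f_al, type I2(m): a valuation of the field of rational functions
-/

set_option autoImplicit false

namespace Pool.Agent.Lib.MP_97567f_al

open Polynomial IsDedekindDomain

theorem qVal : XVal := by
  refine ⟨(Polynomial.idealX ℂ).valuation K1, ?_, ?_⟩
  · have h1 : (Polynomial.idealX ℂ).valuation K1 (algebraMap ℂ[X] K1 X) < 1 := by
      rw [HeightOneSpectrum.valuation_of_algebraMap,
        HeightOneSpectrum.intValuation_lt_one_iff_mem, Polynomial.idealX_span]
      exact Ideal.mem_span_singleton_self X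
    exact h1.ne
  · intro a ha
    have h1 : algebraMap ℂ K1 a = algebraMap ℂ[X] K1 (C a) :=
      IsScalarTower.algebraMap_apply ℂ ℂ[X] K1 a
    rw [h1, HeightOneSpectrum.valuation_of_algebraMap, HeightOneSpectrum.intValuation_eq_one_iff,
      Polynomial.idealX_span, Ideal.mem_span_singleton, Polynomial.X_dvd_iff, coeff_C_zero]
    exact ha

end Pool.Agent.Lib.MP_97567f_al
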