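import Pool.Agent.Lib.MP_97567f_al.Comp
import Pool.Agent.Lib.MP_97567f_al.I2.Pres
import Pool.Agent.Lib.MP_97567f_al.I2.Out
import Pool.Agent.Lib.MP_97567f_al.I2.Aut0
import Pool.Agent.Lib.MP_97567f_al.I2.Aut2
import Pool.Agent.Lib.MP_97567f_al.I2.Tor
import Pool.Agent.Lib.MP_97567f_al.I2.Pow
import Pool.Agent.Lib.MP_97567f_al.I2.Gen
import Pool.Agent.Lib.MP_97567f_al.I2.Ping
import Pool.Agent.Lib.MP_97567f_al.I2.Span
import Pool.Agent.Lib.MP_97567f_al.I2.Val
import Pool.Agent.Lib.MP_97567f_al.I2.Pi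
import Pool.Agent.Lib.MP_97567f_al.I2.Good

/-!
# MP_97567f_al, type I2(m): complete
-/

set_option autoImplicit false

namespace Pool.Agent.Lib.MP_97567f_al

/-- **Type I2(m)**, `m ≥ 3` (all the modules put together). -/
theorem good_I2 : XGood :=
  qGood (qPres pComp) (qOut (qAut0 qTor qPow qGen) (qAut2 qTor qGen)) qPing qSpan qVal qPi

/-- The dihedral Artin group with label `m + 2`, in the form of Mathlib. -/
theorem good_I2m (m : ℕ) (hm : 1 ≤ m) : U.Good (Art (CoxeterMatrix.I m)) := by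
  refine good_I2 _ ?_
  show 3 ≤ (CoxeterMatrix.I m).M 0 1
  simp [CoxeterMatrix.I]
  omega

end Pool.Agent.Lib.MP_97567f_al
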