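import Pool.Agent.Lib.MP_97567f_al.Base

/-!
# MP_97567f_al, type I2(m): reduced words in a free product of two groups, Artin groups with two generators

`RW M i j n g`: the element `g` of the free product of `M false` and `M true` is the product of a reduced word of length
`n` with the first letter in `M i` and the last letter in `M j`. `alt m a b`: the alternating product `a b a ..` of `m` factors.
-/

set_option autoImplicit false

namespace Pool.Agent.Lib.MP_97567f_al

open Monoid

section words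

variable {M : Bool → Type} [∀ i, Group (M i)]

/-- Elements with a reduced word of length `n` from `M i` to `M j`. -/
def RW (M : Bool → Type) [∀ i, Group (M i)] (i j : Bool) (n : ℕ) (g : CoprodI M) : Prop :=
  ∃ w : CoprodI.NeWord M i j, w.prod = g ∧ w.toList.length = n

theorem RW.single {i : Bool} {a : M i} (ha : a ≠ 1) : RW M i i 1 (CoprodI.of a) :=
  ⟨CoprodI.NeWord.singleton a ha, by simp, rfl⟩

theorem RW.mul {i j k l : Bool} {n m : ℕ} {g h : CoprodI M} (h1 : RW M i j n g) (hjk : j ≠ k)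
    (h2 : RW M k l m h) : RW M i l (n + m) (g * h) := by
  obtain ⟨w, rfl, rfl⟩ := h1
  obtain ⟨v, rfl, rfl⟩ := h2
  exact ⟨CoprodI.NeWord.append w hjk v, by simp, by simp⟩

private theorem length_inv {i j : Bool} (w : CoprodI.NeWord M i j) :
    w.inv.toList.length = w.toList.length := by
  induction w with
  | singleton x hx => simp [CoprodI.NeWord.inv]
  | append w₁ h w₂ ih1 ih2 => simp [CoprodI.NeWord.inv, ih1, ih2, add_comm]

theorem RW.inv {i j : Bool} {n : ℕ} {g : CoprodI M} (h : RW M i j n g) : RW M j i n g⁻¹ := by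
  obtain ⟨w, rfl, rfl⟩ := h
  exact ⟨w.inv, by simp, length_inv w⟩

theorem RW.pos {i j : Bool} {n : ℕ} {g : CoprodI M} (h : RW M i j n g) : 0 < n := by
  obtain ⟨w, rfl, rfl⟩ := h
  exact List.length_pos_of_ne_nil w.toList_ne_nil

/-- Uniqueness. -/
theorem RW.unique {i j i' j' : Bool} {n n' : ℕ} {g : CoprodI M} (h : RW M i j n g)
    (h' : RW M i' j' n' g) : i = i' ∧ j = j' ∧ n = n' := by
  classical
  obtain ⟨w, hw, rfl⟩ := h
  obtain ⟨v, hv, rfl⟩ := h'
  have h1 : w.toWord = v.toWord :=
    (CoprodI.Word.equiv (M := M)).symm.injective (hw.trans hv.symm)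
  have h2 : w.toList = v.toList := congrArg CoprodI.Word.toList h1
  have h3 := w.toList_head?
  have h4 := w.toList_getLast?
  rw [h2, CoprodI.NeWord.toList_head?] at h3
  rw [h2, CoprodI.NeWord.toList_getLast?] at h4
  have h5 := congrArg Sigma.fst (Option.some_injective _ h3)
  have h6 := congrArg Sigma.fst (Option.some_injective _ h4)
  exact ⟨h5.symm, h6.symm, by rw [h2]⟩

theorem RW.ne_one {i j : Bool} {n : ℕ} {g : CoprodI M} (h : RW M i j n g) : g ≠ 1 := by
  classical
  rintro rfl
  obtain ⟨w, hw, rfl⟩ := h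
  have h1 : w.toWord = CoprodI.Word.empty :=
    (CoprodI.Word.equiv (M := M)).symm.injective (hw.trans CoprodI.Word.prod_empty.symm)
  exact w.toList_ne_nil (congrArg CoprodI.Word.toList h1)

/-- Every element is `1` or has a reduced word. -/
theorem RW.exists (g : CoprodI M) : g = 1 ∨ ∃ i j n, RW M i j n g := by
  classical
  obtain ⟨w, rfl⟩ := (CoprodI.Word.equiv (M := M)).symm.surjective g
  by_cases h : w = CoprodI.Word.empty
  · left
    rw [h]
    rfl
  · right
    obtain ⟨i, j, w', rfl⟩ := CoprodI.NeWord.of_word w h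
    exact ⟨i, j, _, w', rfl, rfl⟩

/-- The first letter. -/
theorem RW.left {i j : Bool} {n : ℕ} {g : CoprodI M} (h : RW M i j n g) :
    (i = j ∧ n = 1 ∧ ∃ a : M i, a ≠ 1 ∧ g = CoprodI.of a) ∨
    ∃ (a : M i) (g' : CoprodI M) (n' : ℕ), a ≠ 1 ∧ n = n' + 1 ∧ RW M (!i) j n' g' ∧
      g = CoprodI.of a * g' := by
  obtain ⟨w, rfl, rfl⟩ := h
  induction w with
  | singleton x hx => exact Or.inl ⟨rfl, rfl, x, hx, by simp⟩
  | @append i j k l w₁ hne w₂ ih1 ih2 =>
    right
    rcases ih1 with ⟨rfl, h2, a, ha, h3⟩ | ⟨a, g', n', ha, h2, h3, h4⟩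
    · refine ⟨a, w₂.prod, w₂.toList.length, ha, ?_, ?_, ?_⟩
      · simp only [CoprodI.NeWord.toList, List.length_append, h2]
        omega
      · have hk : k = !i := by
          cases i <;> cases k <;> simp_all
        subst hk
        exact ⟨w₂, rfl, rfl⟩
      · rw [CoprodI.NeWord.append_prod, h3]
    · refine ⟨a, g' * w₂.prod, n' + w₂.toList.length, ha, ?_, ?_, ?_⟩
      · simp only [CoprodI.NeWord.toList, List.length_append, h2]
        omega
      · exact h3.mul hne ⟨w₂, rfl, rfl⟩
      · rw [CoprodI.NeWord.append_prod, h4, mul_assoc]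

/-- The last letter. -/
theorem RW.right {i j : Bool} {n : ℕ} {g : CoprodI M} (h : RW M i j n g) :
    (i = j ∧ n = 1 ∧ ∃ a : M j, a ≠ 1 ∧ g = CoprodI.of a) ∨
    ∃ (a : M j) (g' : CoprodI M) (n' : ℕ), a ≠ 1 ∧ n = n' + 1 ∧ RW M i (!j) n' g' ∧
      g = g' * CoprodI.of a := by
  rcases h.inv.left with ⟨rfl, h2, a, ha, h3⟩ | ⟨a, g', n', ha, h2, h3, h4⟩
  · refine Or.inl ⟨rfl, h2, a⁻¹, inv_ne_one.2 ha, ?_⟩
    rw [map_inv, ← h3, inv_inv]
  · refine Or.inr ⟨a⁻¹, g'⁻¹, n', inv_ne_one.2 ha, h2, h3.inv, ?_⟩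
    rw [map_inv, ← mul_inv_rev, ← h4, inv_inv]

end words

/-- The free product of two cyclic groups, of the orders `c false` and `c true` (`0` means infinite). -/
abbrev FZ (c : Bool → ℕ) : Type := CoprodI fun b : Bool => Multiplicative (ZMod (c b))

/-- The generator of the factor `b`. -/
def gz (c : Bool → ℕ) (b : Bool) : FZ c :=
  CoprodI.of (M := fun b : Bool => Multiplicative (ZMod (c b))) (i := b) (Multiplicative.ofAdd 1)

/-- The two cases: the factor `true` is infinite cyclic, or it has order two and the other one odd order. -/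
def Adm (c : Bool → ℕ) : Prop :=
  (c true = 0 ∧ 2 ≤ c false) ∨ (c true = 2 ∧ 3 ≤ c false ∧ Odd (c false))

section art

/-- The alternating product. -/
def alt {G : Type} [Monoid G] (m : ℕ) (a b : G) : G :=
  ((List.range m).map (fun k : ℕ => if k % 2 = 0 then a else b)).prod

theorem alt_succ {G : Type} [Monoid G] (m : ℕ) (a b : G) :
    alt (m + 1) a b = alt m a b * (if m % 2 = 0 then a else b) := by
  unfold alt
  rw [List.range_succ, List.map_append, List.prod_append]
  simp

theorem alt_even {G : Type} [Monoid G] (k : ℕ) (a b : G) : alt (2 * k) a b = (a * b) ^ k := by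
  induction k with
  | zero => simp [alt]
  | succ k ih =>
    rw [show 2 * (k + 1) = 2 * k + 1 + 1 by ring, alt_succ, alt_succ, ih, if_pos (by omega),
      if_neg (by omega), pow_succ, mul_assoc]

theorem alt_odd {G : Type} [Monoid G] (k : ℕ) (a b : G) :
    alt (2 * k + 1) a b = (a * b) ^ k * a := by
  rw [alt_succ, alt_even, if_pos (by omega)]

theorem alt_map {G H : Type} [Monoid G] [Monoid H] (f : G →* H) (m : ℕ) (a b : G) :
    f (alt m a b) = alt m (f a) (f b) := by
  induction m with
  | zero => simp [alt]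
  | succ m ih =>
    rw [alt_succ, alt_succ, map_mul, ih]
    split_ifs <;> rfl

/-- The universal property of the Artin group of any Coxeter matrix. -/
theorem artG_lift {n : ℕ} {M : CoxeterMatrix (Fin n)} {G : Type} [Group G] (f : Fin n → G)
    (h : ∀ i j, alt (M.M i j) (f i) (f j) = alt (M.M i j) (f j) (f i)) :
    ∃ φ : Art M →* G, ∀ i, φ (gn M i) = f i := by
  refine ⟨PresentedGroup.toGroup (f := f) ?_, fun i => PresentedGroup.toGroup.of _⟩
  rintro _ ⟨⟨i, j⟩, rfl⟩
  have h1 := alt_map (FreeGroup.lift f) (M.M i j) (FreeGroup.of i) (FreeGroup.of j)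
  have h2 := alt_map (FreeGroup.lift f) (M.M i j) (FreeGroup.of j) (FreeGroup.of i)
  have h3 : FreeGroup.lift f (alt (M.M i j) (FreeGroup.of i) (FreeGroup.of j) *
      (alt (M.M i j) (FreeGroup.of j) (FreeGroup.of i))⁻¹) = 1 := by
    rw [map_mul, map_inv, h1, h2, mul_inv_eq_one]
    simpa using h i j
  exact h3

/-- The relations. -/
theorem artG_rel {n : ℕ} (M : CoxeterMatrix (Fin n)) (i j : Fin n) :
    alt (M.M i j) (gn M i) (gn M j) = alt (M.M i j) (gn M j) (gn M i) := by
  have h0 : ∀ i, (QuotientGroup.mk' _ : FreeGroup (Fin n) →* Art M) (FreeGroup.of i) = gn M i :=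
    fun i => rfl
  have h1 : (QuotientGroup.mk' _ : FreeGroup (Fin n) →* Art M)
      (alt (M.M i j) (FreeGroup.of i) (FreeGroup.of j) *
      (alt (M.M i j) (FreeGroup.of j) (FreeGroup.of i))⁻¹) = 1 := by
    refine (QuotientGroup.eq_one_iff _).2 (Subgroup.subset_normalClosure ?_)
    exact ⟨(i, j), rfl⟩
  rw [map_mul, map_inv, mul_inv_eq_one, alt_map, alt_map, h0, h0] at h1
  exact h1

/-- The universal property for two generators. -/
theorem art2_lift {M : CoxeterMatrix (Fin 2)} {G : Type} [Group G] (a b : G)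
    (h : alt (M.M 0 1) a b = alt (M.M 0 1) b a) :
    ∃ φ : Art M →* G, φ (gn M 0) = a ∧ φ (gn M 1) = b := by
  obtain ⟨φ, h1⟩ := artG_lift (M := M) ![a, b] fun i j => by
    have hs : M.M 1 0 = M.M 0 1 := (M.symmetric 0 1).symm
    fin_cases i <;> fin_cases j
    · rfl
    · exact h
    · change alt (M.M 1 0) b a = alt (M.M 1 0) a b
      rw [hs, h]
    · rfl
  exact ⟨φ, h1 0, h1 1⟩

theorem art2_closure (M : CoxeterMatrix (Fin 2)) :
    Subgroup.closure {gn M 0, gn M 1} = (⊤ : Subgroup (Art M)) := by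
  rw [← PresentedGroup.closure_range_of]
  congr 1
  ext x
  constructor
  · rintro (rfl | rfl)
    · exact ⟨0, rfl⟩
    · exact ⟨1, rfl⟩
  · rintro ⟨i, rfl⟩
    fin_cases i
    · exact Or.inl rfl
    · exact Or.inr rfl

end art

end Pool.Agent.Lib.MP_97567f_al
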