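import Pool.Agent.Lib.MP_97567f_al.I2.Spec

/-!
# MP_97567f_al, type I2(m), module Pi: the quotient of the Artin group by its center
-/

set_option autoImplicit false

namespace Pool.Agent.Lib.MP_97567f_al

open Monoid

/-- A homomorphism from a cyclic group. -/
private theorem I2Pi_cyc {G : Type} [Group G] (n : ℕ) (g : G) (hg : g ^ n = 1) :
    ∃ f : Multiplicative (ZMod n) →* G, f (Multiplicative.ofAdd 1) = g := by
  let F : ℤ →+ Additive G := zmultiplesHom (Additive G) (Additive.ofMul g)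
  have hF : F (n : ℤ) = 0 := by
    change ((n : ℤ) • Additive.ofMul g : Additive G) = 0
    rw [natCast_zsmul, ← ofMul_pow, hg]
    rfl
  let f0 : ZMod n →+ Additive G := ZMod.lift n ⟨F, hF⟩
  have h1 : f0 1 = Additive.ofMul g := by
    have h2 := ZMod.lift_coe n ⟨F, hF⟩ 1
    rw [Int.cast_one] at h2
    change f0 1 = F 1 at h2
    rw [h2]
    change ((1 : ℤ) • Additive.ofMul g : Additive G) = _
    rw [one_zsmul]
  refine ⟨MonoidHom.mk' (fun a => Additive.toMul (f0 (Multiplicative.toAdd a))) ?_, ?_⟩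
  · intro a b
    rw [toAdd_mul, map_add, toMul_add]
  · change Additive.toMul (f0 1) = g
    rw [h1]
    rfl

/-- Homomorphisms from the free product. -/
private theorem I2Pi_lift {G : Type} [Group G] (c : Bool → ℕ) (x y : G) (hx : x ^ c true = 1)
    (hy : y ^ c false = 1) : ∃ g : FZ c →* G, g (gz c true) = x ∧ g (gz c false) = y := by
  obtain ⟨f1, h1⟩ := I2Pi_cyc (c true) x hx
  obtain ⟨f2, h2⟩ := I2Pi_cyc (c false) y hy
  let f : ∀ b : Bool, Multiplicative (ZMod (c b)) →* G := fun b => match b with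
    | true => f1
    | false => f2
  refine ⟨CoprodI.lift f, ?_, ?_⟩
  · unfold gz
    rw [CoprodI.lift_of]
    exact h1
  · unfold gz
    rw [CoprodI.lift_of]
    exact h2

private theorem I2Pi_pow (c : Bool → ℕ) (b : Bool) : gz c b ^ c b = 1 := by
  unfold gz
  rw [← map_pow, ← ofAdd_nsmul]
  have h : (c b • (1 : ZMod (c b))) = 0 := by simp
  rw [h, ofAdd_zero, map_one]

private theorem I2Pi_gen (c : Bool → ℕ) (H : Subgroup (FZ c)) (h1 : gz c true ∈ H)
    (h2 : gz c false ∈ H) (g : FZ c) : g ∈ H := by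
  have h3 : ∀ b : Bool, gz c b ∈ H := by
    intro b
    cases b
    · exact h2
    · exact h1
  induction g using CoprodI.induction_on with
  | one => exact H.one_mem
  | of i m =>
    obtain ⟨k, hk⟩ := ZMod.intCast_surjective (Multiplicative.toAdd m)
    have h4 : m = (Multiplicative.ofAdd (1 : ZMod (c i))) ^ k := by
      rw [← ofAdd_zsmul]
      have h5 : (k • (1 : ZMod (c i))) = (k : ZMod (c i)) := by simp
      rw [h5, hk]
      rfl
    rw [h4, map_zpow]
    exact H.zpow_mem (h3 i) k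
  | mul x y hx hy => exact H.mul_mem hx hy

private theorem I2Pi_core {M : CoxeterMatrix (Fin 2)} (c : Bool → ℕ) (p : Art M →* FZ c)
    (z0 x' y' : Art M) (hc : ∀ a, a * z0 = z0 * a) (hx : x' ^ c true ∈ Subgroup.zpowers z0)
    (hy : y' ^ c false ∈ Subgroup.zpowers z0)
    (hs : ∀ (G : Type) [Group G] (f : Art M →* G) (g : FZ c →* G), g (gz c true) = f x' →
      g (gz c false) = f y' → g (p (gn M 0)) = f (gn M 0) ∧ g (p (gn M 1)) = f (gn M 1))
    (z : Art M) (hz : p z = 1) : z ∈ Subgroup.zpowers z0 := by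
  have hn : (Subgroup.zpowers z0).Normal := by
    refine ⟨fun n hn g => ?_⟩
    obtain ⟨k, rfl⟩ := Subgroup.mem_zpowers_iff.1 hn
    have h1 : Commute g (z0 ^ k) := Commute.zpow_right (hc g) k
    rw [h1.eq, mul_inv_cancel_right]
    exact hn
  let f : Art M →* (Art M ⧸ Subgroup.zpowers z0) := QuotientGroup.mk' _
  obtain ⟨g, g1, g2⟩ := I2Pi_lift (G := Art M ⧸ Subgroup.zpowers z0) c (f x') (f y')
    (by rw [← map_pow]; exact (QuotientGroup.eq_one_iff _).2 hx)
    (by rw [← map_pow]; exact (QuotientGroup.eq_one_iff _).2 hy)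
  obtain ⟨s1, s2⟩ := hs _ f g g1 g2
  have h2 : g.comp p = f := by
    refine MonoidHom.eq_of_eqOn_dense (art2_closure M) ?_
    rintro _ (rfl | rfl)
    · exact s1
    · exact s2
  have h3 : f z = 1 := by
    rw [← h2, MonoidHom.comp_apply, hz, map_one]
  exact (QuotientGroup.eq_one_iff _).1 h3

/-- The last two properties of the kernel. -/
private theorem I2Pi_ker {M : CoxeterMatrix (Fin 2)} (z0 : Art M) (n : ℤ) (hn : n ≠ 0)
    (hc : ∀ a, a * z0 = z0 * a)
    (φ0 : Art M →* Multiplicative ℤ) (h0 : φ0 z0 = Multiplicative.ofAdd n) (z : Art M)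
    (hz : z ∈ Subgroup.zpowers z0) :
    (∀ a, a * z = z * a) ∧ ((∀ φ : Art M →* Multiplicative ℤ, φ z = 1) → z = 1) := by
  obtain ⟨j, rfl⟩ := Subgroup.mem_zpowers_iff.1 hz
  refine ⟨fun a => (Commute.zpow_right (hc a) j).eq, fun h => ?_⟩
  have h1 := h φ0
  rw [map_zpow, h0, ← ofAdd_zsmul, ofAdd_eq_one, smul_eq_mul, mul_eq_zero] at h1
  rcases h1 with h1 | h1
  · rw [h1, zpow_zero]
  · exact absurd h1 hn

theorem qPi : XPi := by
  intro M hm
  obtain ⟨φ0, hφ1, hφ2⟩ := art2_lift (M := M) (G := Multiplicative ℤ) (Multiplicative.ofAdd 1)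
    (Multiplicative.ofAdd 1) rfl
  have hφ : φ0 (gn M 0 * gn M 1) = Multiplicative.ofAdd 2 := by
    rw [map_mul, hφ1, hφ2, ← ofAdd_add]
    rfl
  have hrel := artG_rel M 0 1
  have hcen : ∀ z0 : Art M, gn M 0 * z0 = z0 * gn M 0 → gn M 1 * z0 = z0 * gn M 1 →
      ∀ a, a * z0 = z0 * a := by
    intro z0 h1 h2 a
    have h3 : a ∈ Subgroup.closure {gn M 0, gn M 1} := by
      rw [art2_closure]
      trivial
    induction h3 using Subgroup.closure_induction with
    | mem x hx =>
      rcases hx with rfl | rfl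
      · exact h1
      · exact h2
    | one => rw [one_mul, mul_one]
    | mul x y _ _ hx hy => rw [mul_assoc, hy, ← mul_assoc, hx, mul_assoc]
    | inv x _ hx => exact (Commute.inv_left (show Commute x z0 from hx)).eq
  obtain ⟨k, hk | hk⟩ := Nat.even_or_odd' (M.M 0 1)
  · -- even
    let c : Bool → ℕ := fun b => if b then 0 else k
    have hct : c true = 0 := rfl
    have hcf : c false = k := rfl
    have hY : gz c false ^ k = 1 := I2Pi_pow c false
    have hab : gz c true * ((gz c true)⁻¹ * gz c false) = gz c false := by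
      rw [mul_inv_cancel_left]
    have hpw : alt (M.M 0 1) (gz c true) ((gz c true)⁻¹ * gz c false) =
        alt (M.M 0 1) ((gz c true)⁻¹ * gz c false) (gz c true) := by
      rw [hk, alt_even, alt_even, hab, hY]
      have h1 : ((gz c true)⁻¹ * gz c false * gz c true) ^ k =
          (gz c true)⁻¹ * gz c false ^ k * gz c true := by
        have h2 := conj_pow (i := k) (a := (gz c true)⁻¹) (b := gz c false)
        rw [inv_inv] at h2
        exact h2
      rw [h1, hY, mul_one, inv_mul_cancel]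
    obtain ⟨p, hp1, hp2⟩ := art2_lift (M := M) (gz c true) ((gz c true)⁻¹ * gz c false) hpw
    rw [hk, alt_even, alt_even] at hrel
    have hz := hcen ((gn M 0 * gn M 1) ^ k)
      (by
        conv_lhs => rw [hrel]
        rw [← mul_pow_mul])
      (by
        conv_rhs => rw [hrel]
        rw [← mul_pow_mul])
    have hk0 : 2 ≤ k := by omega
    have hker : ∀ z, p z = 1 → z ∈ Subgroup.zpowers ((gn M 0 * gn M 1) ^ k) := by
      intro z hz1
      refine I2Pi_core c p _ (gn M 0) (gn M 0 * gn M 1) hz ?_ ?_ ?_ z hz1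
      · rw [hct, pow_zero]
        exact Subgroup.one_mem _
      · rw [hcf]
        exact Subgroup.mem_zpowers _
      · intro G _ f g g1 g2
        rw [hp1, hp2, map_mul, map_inv, g1, g2, map_mul, inv_mul_cancel_left]
        exact ⟨rfl, rfl⟩
    have hkk := I2Pi_ker ((gn M 0 * gn M 1) ^ k) (k • 2) (by simp; omega) hz φ0
      (by rw [map_pow, hφ, ← ofAdd_nsmul])
    refine ⟨c, Or.inl ⟨hct, hk0⟩, p, ?_, fun z h => (hkk z (hker z h)).1,
      fun z h => (hkk z (hker z h)).2, Or.inl ⟨hct, hp1, hp2⟩⟩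
    rw [← MonoidHom.range_eq_top]
    refine eq_top_iff.2 fun g _ => I2Pi_gen c p.range ⟨gn M 0, hp1⟩ ⟨gn M 0 * gn M 1, ?_⟩ g
    rw [map_mul, hp1, hp2, hab]
  · -- odd
    let c : Bool → ℕ := fun b => if b then 2 else 2 * k + 1
    have hct : c true = 2 := rfl
    have hcf : c false = 2 * k + 1 := rfl
    have hY : gz c false ^ (2 * k + 1) = 1 := I2Pi_pow c false
    have hX : gz c true * gz c true = 1 := by
      have h := I2Pi_pow c true
      rw [hct, sq] at h
      exact h
    have hab : (gz c false ^ k)⁻¹ * gz c true * (gz c true * (gz c false ^ k)⁻¹) = gz c false := by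
      have h1 : (gz c false ^ k)⁻¹ * gz c true * (gz c true * (gz c false ^ k)⁻¹) =
          (gz c false ^ k)⁻¹ * (gz c true * gz c true) * (gz c false ^ k)⁻¹ := by group
      rw [h1, hX, mul_one, ← mul_inv_rev, ← pow_add, inv_eq_iff_mul_eq_one, ← pow_succ]
      rw [← two_mul, hY]
    have ha : alt (M.M 0 1) ((gz c false ^ k)⁻¹ * gz c true) (gz c true * (gz c false ^ k)⁻¹) =
        gz c true := by
      rw [hk, alt_odd, hab, mul_inv_cancel_left]
    have hb : alt (M.M 0 1) (gz c true * (gz c false ^ k)⁻¹) ((gz c false ^ k)⁻¹ * gz c true) =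
        gz c true := by
      rw [hk, alt_odd, mul_pow_mul, hab, inv_mul_cancel_right]
    obtain ⟨p, hp1, hp2⟩ := art2_lift (M := M) ((gz c false ^ k)⁻¹ * gz c true)
      (gz c true * (gz c false ^ k)⁻¹) (ha.trans hb.symm)
    rw [hk, alt_odd, alt_odd, mul_pow_mul (gn M 1)] at hrel
    -- the Garside element
    have hD2 : (gn M 0 * gn M 1) ^ k * gn M 0 * ((gn M 0 * gn M 1) ^ k * gn M 0) =
        (gn M 0 * gn M 1) ^ (2 * k + 1) := by
      conv_lhs =>
        enter [2]
        rw [hrel]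
      have h1 : (gn M 0 * gn M 1) ^ k * gn M 0 * (gn M 1 * (gn M 0 * gn M 1) ^ k) =
          (gn M 0 * gn M 1) ^ k * (gn M 0 * gn M 1) * (gn M 0 * gn M 1) ^ k := by
        simp only [mul_assoc]
      rw [h1, ← pow_succ, ← pow_add]
      congr 1
      ring
    have cY : Commute (gn M 0 * gn M 1) ((gn M 0 * gn M 1) ^ (2 * k + 1)) :=
      Commute.self_pow _ _
    have cD : Commute ((gn M 0 * gn M 1) ^ k * gn M 0) ((gn M 0 * gn M 1) ^ (2 * k + 1)) := by
      rw [← hD2]
      exact (Commute.refl _).mul_right (Commute.refl _)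
    have es : gn M 0 = ((gn M 0 * gn M 1) ^ k)⁻¹ * ((gn M 0 * gn M 1) ^ k * gn M 0) := by
      rw [inv_mul_cancel_left]
    have et : gn M 1 = (gn M 0 * gn M 1) ^ k * gn M 0 * ((gn M 0 * gn M 1) ^ k)⁻¹ := by
      rw [hrel, mul_inv_cancel_right]
    have cs : Commute (gn M 0) ((gn M 0 * gn M 1) ^ (2 * k + 1)) := by
      have h := ((cY.pow_left k).inv_left).mul_left cD
      rwa [← es] at h
    have ct : Commute (gn M 1) ((gn M 0 * gn M 1) ^ (2 * k + 1)) := by
      have h := cD.mul_left ((cY.pow_left k).inv_left)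
      rwa [← et] at h
    have hz := hcen ((gn M 0 * gn M 1) ^ (2 * k + 1)) cs.eq ct.eq
    have hker : ∀ z, p z = 1 → z ∈ Subgroup.zpowers ((gn M 0 * gn M 1) ^ (2 * k + 1)) := by
      intro z hz1
      refine I2Pi_core c p _ ((gn M 0 * gn M 1) ^ k * gn M 0) (gn M 0 * gn M 1) hz ?_ ?_ ?_ z hz1
      · rw [hct, sq, hD2]
        exact Subgroup.mem_zpowers _
      · rw [hcf]
        exact Subgroup.mem_zpowers _
      · intro G _ f g g1 g2
        rw [hp1, hp2]
        constructor
        · conv_rhs => rw [es]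
          rw [map_mul, map_inv, map_pow, g1, g2, map_mul f (_)⁻¹, map_inv, map_pow]
        · conv_rhs => rw [et]
          rw [map_mul, map_inv, map_pow, g1, g2, map_mul f _ (_)⁻¹, map_inv, map_pow]
    have hkk := I2Pi_ker ((gn M 0 * gn M 1) ^ (2 * k + 1)) ((2 * k + 1) • 2)
      (by simp; omega) hz φ0 (by rw [map_pow, hφ, ← ofAdd_nsmul])
    refine ⟨c, Or.inr ⟨hct, by omega, ⟨k, hcf⟩⟩, p, ?_, fun z h => (hkk z (hker z h)).1,
      fun z h => (hkk z (hker z h)).2, Or.inr ⟨hct, k, by omega, by omega, hp1, hp2⟩⟩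
    rw [← MonoidHom.range_eq_top]
    refine eq_top_iff.2 fun g _ => I2Pi_gen c p.range ⟨(gn M 0 * gn M 1) ^ k * gn M 0, ?_⟩
      ⟨gn M 0 * gn M 1, ?_⟩ g
    · rw [map_mul, map_pow, map_mul, hp1, hp2, hab, mul_inv_cancel_left]
    · rw [map_mul, hp1, hp2, hab]

end Pool.Agent.Lib.MP_97567f_al
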