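import Pool.Agent.Lib.MP_97567f_al.I2.Base
import Pool.Agent.Lib.MP_97567f_al.SpecT

/-!
# MP_97567f_al, type I2(m): statements of the modules

Every statement is a proposition `XName`; the module `I2/Name.lean` proves `qName : XName`, or, if the docstring names other
statements, `qName` takes these as hypotheses. The first facts on reduced words (`RW.single`, `RW.mul`, `RW.inv`, `RW.pos`,
`RW.unique`, `RW.ne_one`, `RW.exists`, `RW.left`, `RW.right`) are proved in `I2/Base.lean`.
-/

set_option autoImplicit false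

namespace Pool.Agent.Lib.MP_97567f_al

open Monoid

section words

/-- **Elements of finite order** (60 lines).
Proof. `g = 1`: take `a = 1`. Otherwise `RW M i j m g` (`RW.exists`); strong induction on `m`, for all `i, j, g`. If `i ≠ j` then `RW M i j (n * m) (g ^ n)` for all `n ≥ 1` by induction (`RW.mul`, as `j ≠ i`),
so `g ^ n ≠ 1` (`RW.ne_one`): contradiction. If `i = j`: `RW.left`: either `g = of a` (done, `h = 1`), or `g = of a * g1` with `RW M (!i) i (m - 1) g1`, and by `RW.right` (the first case is impossible as `!i ≠ i`)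
`g1 = g2 * of b` with `RW M (!i) (!i) (m - 2) g2`. Let `g' = (of a)⁻¹ * g * of a = g2 * of (b * a)`, `g' ^ n = 1`. If `b * a = 1` then `g' = g2` and the induction hypothesis applies to `g2`. If `b * a ≠ 1` then
`RW M (!i) i (m - 1) g'`, which was excluded in the first case (or: use the induction hypothesis, `m - 1 < m`). -/
def XTor : Prop :=
  ∀ (M : Bool → Type) [∀ i, Group (M i)] (g : CoprodI M) (n : ℕ), 0 < n → g ^ n = 1 →
    ∃ (i : Bool) (a : M i) (h : CoprodI M), g = h * CoprodI.of a * h⁻¹

/-- **Powers of elements of infinite order** (80 lines).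
Proof. Strong induction on `m`, for both `i`. `RW.left` and `RW.right`: either `g = of a`, `m = 1`, then `g ^ n = of (a ^ n)`, `a ^ n ≠ 1`, `RW.single`; or `g = of a * g2 * of b` with `a, b ≠ 1`, `RW M (!i) (!i) (m - 2) g2` (see `XTor`), `m ≥ 3`. Case `b * a ≠ 1`: let `d = of (b * a) * g2`,
`RW M i (!i) (m - 1) d`, so `RW M i (!i) (k * (m - 1)) (d ^ k)` for `k ≥ 1` by induction (`RW.mul`). `g ^ n = of a * g2 * d ^ (n - 1) * of b` (induction on `n`; for `n = 1` there is no `d`), which is reduced from `M i` to `M i` and has at least the length `m`. Case `b * a = 1`: `g = of a * g2 * (of a)⁻¹`, `g ^ n = of a * g2 ^ n * (of a)⁻¹`;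
`g2` has infinite order (`g2 ^ k = 1` implies `g ^ k = 1`), so `RW M (!i) (!i) m' (g2 ^ n)` with `m' ≥ m - 2` by induction, and `RW M i i (m' + 2) (g ^ n)`. -/
def XPow : Prop :=
  ∀ (M : Bool → Type) [∀ i, Group (M i)] (i : Bool) (m : ℕ) (g : CoprodI M), RW M i i m g →
    (∀ n : ℕ, 0 < n → g ^ n ≠ 1) → ∀ n : ℕ, 0 < n → ∃ m', m ≤ m' ∧ RW M i i m' (g ^ n)

/-- **The subgroup generated by an element and a factor** (100 lines).
Proof. Let `T` be the smallest set of elements with: `1 ∈ T`; `of q ∈ T` for `q ∈ M false`, `q ≠ 1`; `of q * g ^ n * t ∈ T` for `q ∈ M false`, `q ≠ 1`, `g ^ n ≠ 1`, `t ∈ T` (an inductive predicate). Every `t ∈ T` is `1` or `RW M false j k t` for some `j`, `k` (induction; `g ^ n` is reduced from `true` to `true`). Let `X` be the set of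
the `of q` (`q ∈ M false`) and the `of q * g ^ n * t` with `q ∈ M false` (`q = 1` allowed), `g ^ n ≠ 1`, `t ∈ T`. Then `T ⊆ X`, `1 ∈ X`, and `X` is stable under multiplication from the left by `of q'` (clear) and by `g ^ e` (`e = 1, -1`): `g ^ e * of q`: if `g ^ e = 1` clear; otherwise it is `of 1 * g ^ e * t` with `t = of q` or `t = 1`. `g ^ e * of q * g ^ n * t` with
`q ≠ 1`: `of 1 * g ^ e * t'`, `t' = of q * g ^ n * t ∈ T` (or `t' ∈ X` if `g ^ e = 1`). `q = 1`: `g ^ (e + n) * t`: if `g ^ (e + n) = 1` it is `t ∈ X`, otherwise it is in `X`. So the closure is contained in `X` (`Subgroup.closure_induction_left`). For `h = of q * g ^ n * t ∈ X`: `RW M true true m' (g ^ n)`, `m' ≥ m`, so `h` has a reduced word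
of length `≥ m'` (with or without `of q` and `t`). -/
def XGen : Prop :=
  ∀ (M : Bool → Type) [∀ i, Group (M i)] (m : ℕ) (g : CoprodI M),
    (∀ n : ℤ, g ^ n ≠ 1 → ∃ m', m ≤ m' ∧ RW M true true m' (g ^ n)) →
    ∀ h ∈ Subgroup.closure ({g} ∪ Set.range fun q : M false => CoprodI.of q),
      (∃ q : M false, h = CoprodI.of q) ∨ ∃ i j m', m ≤ m' ∧ RW M i j m' h

/-- **Normal form of the automorphisms, infinite case** (from `XTor`, `XPow`, `XGen`, 150 lines).
Proof. Write `x = gz c true`, `y = gz c false`, `Q` = the range of the factor `false` (all powers of `y`). `c true = 0`: `M true = Multiplicative (ZMod 0)`, `ZMod 0 = ℤ`. `f : FZ c →* Multiplicative ℤ`, `x ↦ ofAdd 1`, `y ↦ 1` (`CoprodI.lift`). By `XTor` `α y = h * of a * h⁻¹` for some letter `a` (`y ^ (c false) = 1`, `c false > 0`). If `a` is in the factor `true` then `a` has finite order in `ℤ`,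
so `a = 1`, `α y = 1`, `y = 1`: impossible (`CoprodI.of_injective`, `2 ≤ c false`). So `a ∈ M false`. Let `β z = h⁻¹ * α z * h`, an automorphism with `β y = of a`, so `β (Q) ⊆ Q`, `w = β x`; the closure of `{w} ∪ Q` is everything. So `w` is not in `Q` (`f` would be trivial), and with `RW.exists`, `RW.left`, `RW.right`: `w = of q * w' * of q'` with
`q, q' ∈ M false` and `RW M true true m w'` (remove the first and the last letter if these are in `M false`). The closure of `{w'} ∪ Q` is everything. `w'` has infinite order: if `w' ^ n = 1`, `n > 0`, then `f w' = 1` (`ℤ` is torsion-free), and `f` is trivial on `Q`, so `f` is trivial. The hypothesis of `XGen` holds for `w'` and `m` by `XPow` (for `n < 0` use `RW.inv`; `w' ^ 0 = 1`). `x` is in the closure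
and is not in `Q`, so `RW M i j m' x` with `m ≤ m'`, and `m' = 1` (`RW.unique` with `RW.single`), so `m = 1` and `w' = of b` with `b ∈ M true = ℤ` (`RW.left`). `f` is surjective and its range is generated by `f w' = b`, so `b = 1` or `b = -1` (additively): `w' = x` or `w' = x⁻¹`. -/
def XAut0 : Prop :=
  ∀ (c : Bool → ℕ), c true = 0 → 2 ≤ c false → ∀ α : MulAut (FZ c),
    ∃ (h : FZ c) (a q q' : Multiplicative (ZMod (c false))) (b : Bool),
      h⁻¹ * α (gz c false) * h =
        CoprodI.of (M := fun b : Bool => Multiplicative (ZMod (c b))) (i := false) a ∧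
      h⁻¹ * α (gz c true) * h =
        CoprodI.of (M := fun b : Bool => Multiplicative (ZMod (c b))) (i := false) q *
          (if b then gz c true else (gz c true)⁻¹) *
          CoprodI.of (M := fun b : Bool => Multiplicative (ZMod (c b))) (i := false) q'

/-- **Normal form of the automorphisms, involution case** (from `XTor`, `XGen`, 150 lines).
Proof. Notation of `XAut0`; `c true = 2`, `c false` odd and `≥ 3`. `x` is the only element `≠ 1` of the factor `true`, `x ^ 2 = 1`. `α y = h * of a * h⁻¹` by `XTor`; if `a` were in the factor `true` then `(α y) ^ 2 = 1`, so `y ^ 2 = 1`, impossible (`CoprodI.of_injective`; `c false` does not divide `2`). `β z = h⁻¹ * α z * h`, `β y = of a`,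
`(β x) ^ 2 = 1`, `β x ≠ 1`, so `β x = k * of b * k⁻¹` by `XTor`; `b` in the factor `false` would be of order dividing `2` and of odd order, so `1`. So `b` is in the factor `true` and `β x = k * x * k⁻¹`. Choose such a `k` with the following reductions (`RW.exists`, `RW.left`, `RW.right`): if `k` has a reduced word which ends with a letter of `M true`, that is `x`, remove it
(`k x k⁻¹` does not change). If then `k` is `1` or in `Q`, take `k' = 1`; otherwise `k = of q * k'` where `k'` is reduced from `true` to `false` (or remove nothing, `q = 1`). So `β x = of q * (k' * x * k'⁻¹) * (of q)⁻¹` with `k' = 1` or `RW M true false n k'`. In the second case let `g = k' * x * k'⁻¹`, `RW M true true (2 n + 1) g`, `g ^ 2 = 1`, so every power `g ^ j ≠ 1` (`j ∈ ℤ`) is `g`,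
and `XGen` holds with `m = 2 n + 1 ≥ 3`. The closure of `{g} ∪ Q` is everything (`β` is surjective), it contains `x`, and `x` is not in `Q` and has only reduced words of length `1` (`RW.unique`): contradiction. So `k' = 1` and `β x = of q * x * of q⁻¹`. -/
def XAut2 : Prop :=
  ∀ (c : Bool → ℕ), c true = 2 → 3 ≤ c false → Odd (c false) → ∀ α : MulAut (FZ c),
    ∃ (h : FZ c) (a q q' : Multiplicative (ZMod (c false))) (b : Bool),
      h⁻¹ * α (gz c false) * h =
        CoprodI.of (M := fun b : Bool => Multiplicative (ZMod (c b))) (i := false) a ∧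
      h⁻¹ * α (gz c true) * h =
        CoprodI.of (M := fun b : Bool => Multiplicative (ZMod (c b))) (i := false) q *
          (if b then gz c true else (gz c true)⁻¹) *
          CoprodI.of (M := fun b : Bool => Multiplicative (ZMod (c b))) (i := false) q'

/-- **The inner automorphisms have finite index** (from `XAut0`, `XAut2`, 80 lines).
Proof. `gz c false` and `gz c true` generate `FZ c` (`CoprodI.induction_on`; every element of the factor `b` is a power of `gz c b`). Let `D` be the set of the data `(a, q, q', b)`, finite (`c false ≠ 0`). For every `α` choose `h α` and `d α ∈ D` as in `XAut0` or `XAut2`. If `d α = d α'` then `z ↦ (h α)⁻¹ * α z * h α` and `z ↦ (h α')⁻¹ * α' z * h α'` agree on the generators, so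
`α = conj (h α * (h α')⁻¹) * α'`. So the number of the right cosets (or of the cosets, the range of `conj` is normal) is at most `|D|`: the map from the quotient `MulAut (FZ c) ⧸ range` to `D`, `u ↦ d (Quotient.out u)`, is injective. -/
def XOut : Prop :=
  ∀ c : Bool → ℕ, Adm c → (MulAut.conj : FZ c →* MulAut (FZ c)).range.FiniteIndex

end words

section rep

/-- The matrix of the generator `true`. -/
def mx {K : Type} [Field K] (c : Bool → ℕ) (T : K) : Matrix (Fin 2) (Fin 2) K :=
  if c true = 0 then !![T, 0; 0, 1] else !![0, T; T⁻¹, 0]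

/-- The matrix of the generator `false`. -/
def my {K : Type} [Field K] (z : K) : Matrix (Fin 2) (Fin 2) K :=
  !![2 - z, 2 * z - 2; 1 - z, 2 * z - 1]

/-- **The representation of the free product** (150 lines).
Proof. `my z * my z' = my (z * z')`, `my 1 = 1` (check), so `my (z ^ k) = my z ^ k`; `Y = my ζ` satisfies `Y ^ (c false) = 1`. `X = mx c T` is invertible, `X ^ (c true) = 1`. `τ` is the lift of `ofAdd i ↦ X ^ i`, `ofAdd i ↦ Y ^ i` (`zmultiplesHom`, `ZMod.lift`, or `zmodCyclicMulEquiv`-like facts; homomorphisms `Multiplicative (ZMod k) →* G` are given by an element `g` with `g ^ k = 1`).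
PING-PONG (`CoprodI.lift_injective_of_ping_pong`, or the same induction on reduced words by hand). Let `v` be the valuation of the hypothesis, `v T ≠ 1`, `v` trivial on the constants. Consider vectors `(a, b) ≠ 0` of `K ^ 2`, up to scalars: `XQ`: `v a = v b`; `XP`: `v a ≠ v b`. For `n ≠ 0` (`c true = 0`) `X ^ n (a, b) = (T ^ n a, b)`, and `v (T ^ n) ≠ 1` (`ℤᵐ⁰` is linearly ordered, torsion-free): so `XQ` is mapped to
`XP`. For `c true = 2`: `X (a, b) = (T b, T⁻¹ a)`, `v (T b) = v T v b ≠ (v T)⁻¹ v a` if `v a = v b ≠ 0`, as `v T ≠ (v T)⁻¹`. For `Y ^ i = my z`, `z = ζ ^ i ≠ 1` (`0 < i < c false`, `ζ` primitive): the entries are the images of nonzero complex numbers (`2 - z ≠ 0`, `2 z - 1 ≠ 0` as `|z| = 1`), so if `v a ≠ v b` both coordinates of `my z (a, b)` have the valuation `max (v a) (v b)`: `XP` is mapped to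
`XQ`. CONCLUSION: if `τ g` is a scalar matrix then it maps `XQ` to `XQ` and `XP` to `XP`. If `RW M i i n g` then `τ g` maps `XQ` to `XP` or `XP` to `XQ`: contradiction. If `RW M i j n g` with `i ≠ j`: conjugate `g` by a letter `u ∈ M i`, `u ≠ 1`, `u ≠` the first letter, if `|M i| ≥ 3` (or by a letter of `M j` otherwise) to get the first case; `τ` of the conjugate is the same scalar. (Or apply Mathlib's lemma
to the action on lines.) -/
def XPing : Prop :=
  ∀ (c : Bool → ℕ), Adm c → ∀ (K : Type) [Field K] [Algebra ℂ K]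
    (v : Valuation K (WithZero (Multiplicative ℤ))) (T : K) (ζ : ℂ), T ≠ 0 → v T ≠ 1 →
    (∀ a : ℂ, a ≠ 0 → v (algebraMap ℂ K a) = 1) → IsPrimitiveRoot ζ (c false) →
    ∃ τ : FZ c →* GL (Fin 2) K, (τ (gz c true)).1 = mx c T ∧
      (τ (gz c false)).1 = my (algebraMap ℂ K ζ) ∧
      ∀ g, (∃ m : K, (τ g).1 = m • (1 : Matrix (Fin 2) (Fin 2) K)) → g = 1

/-- **A valuation of the field of rational functions** (40 lines).
Proof. `v` = the valuation of the prime ideal `(X)` of `ℂ[X]` (`Polynomial.idealX`, `IsDedekindDomain.HeightOneSpectrum.valuation` on `K1 = FractionRing ℂ[X]`), or the degree (`FunctionField.inftyValuation`). `v X ≠ 1`; nonzero constants are units of `ℂ[X]`, so their valuation is `1`. -/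
def XVal : Prop :=
  ∃ v : Valuation K1 (WithZero (Multiplicative ℤ)), v xx ≠ 1 ∧
    ∀ a : ℂ, a ≠ 0 → v (algebraMap ℂ K1 a) = 1

/-- **The projective kernel is preserved** (from `SComp`, 200 lines).
Proof. Let `R` be the subalgebra of `K` generated by the entries of all `ρ x` (a domain); `ρ` is the composition of some `ρR : A →* GL ι R` with the inclusion (the inverse of the matrix of `x` is the one of `x⁻¹`). `SComp` gives `F`, `O`, `j`, `ρ'`, `H`. Let `N` be the set of the `x` with `ρ x` scalar. (1) `ρ' (A1)` spans the matrices over `F`: as `ρ (A1)` spans there is a family `x : ι × ι → A1` such that the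
determinant of the matrix `(ρ (x p)) q`, `p, q ∈ ι × ι`, is not zero in `K` (a basis in a spanning set). It is the image of `d ∈ R`, `d ≠ 0`, so `j d ≠ 0`, and `j d` is the residue of the same determinant for `ρ'`, which is therefore not zero in `F`. (2) If `x ∈ N` then `x` commutes with all `a ∈ A1`, so `ρ' x` (over `F`) commutes with all matrices and is scalar. (3) If `ρ' x` is scalar over `F` then its diagonal entries are
equal and the other ones are `0`, in `O` (injective into `F`), so the same holds for `(ρR x).map j`, and for `ρR x` (`j` injective), so `x ∈ N`. (4) `x ∈ N` iff `ρ' x` scalar iff `σ (ρ' x) = ρ' (α x)` scalar iff `α x ∈ N`. -/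
def XPres : Prop :=
  ∀ (A : Type) [Group A], Group.FG A → ∀ (ι : Type) [Fintype ι] [DecidableEq ι] (K : Type)
    [Field K] [Algebra ℂ K] (ρ : A →* GL ι K) (A1 : Subgroup A),
    Submodule.span K {Y : Matrix ι ι K | ∃ x ∈ A1, Y = (ρ x).1} = ⊤ →
    (∀ x, (∃ m : K, (ρ x).1 = m • (1 : Matrix ι ι K)) → ∀ a ∈ A1, a * x = x * a) →
    ∃ H : Subgroup (MulAut A), H.FiniteIndex ∧ ∀ α ∈ H, ∀ x,
      (∃ m : K, (ρ (α x)).1 = m • (1 : Matrix ι ι K)) ↔
        ∃ m : K, (ρ x).1 = m • (1 : Matrix ι ι K)

end rep

section art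

/-- **The quotient by the center** (200 lines).
Proof. Let `s = gn M 0`, `t = gn M 1`, `m = M.M 0 1`, `y' = s * t`. ODD `m = 2 k + 1`: `c true = 2`, `c false = m`. `p : Art M →* FZ c` with `s ↦ y ^ (-k) x`, `t ↦ x y ^ (k + 1)` (`x = gz c true`, `y = gz c false`; `art2_lift`, `alt_odd`): `s t ↦ y`, and both alternating products are mapped to `x` (`(s t) ^ k s ↦ y ^ k y ^ (-k) x`, and `(t s) ^ k t = t (s t) ^ k ↦ x y ^ (k + 1) y ^ k = x`). In `Art M` let
`Δ = (s t) ^ k s = t (s t) ^ k` (`artG_rel`); `Δ ^ 2 = (s t) ^ k s t (s t) ^ k = y' ^ m =: z0`. `z0` commutes with `Δ` and `y'`, so with `s = y' ^ (-k) Δ` and `t = s⁻¹ y'`: it is central. EVEN `m = 2 k`, `k ≥ 2`: `c true = 0`, `c false = k`, `p`: `s ↦ x`, `t ↦ x⁻¹ y`: `(s t) ^ k ↦ 1`, `(t s) ^ k ↦ (x⁻¹ y x) ^ k = 1`. `z0 = (s t) ^ k = (t s) ^ k` commutes with `s` (`s (t s) ^ k = (s t) ^ k s`) and `t`. KERNEL: the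
subgroup `Z0 = zpowers z0` is normal. There is `ψ : FZ c →* Art M ⧸ Z0` with `y ↦ [y']` and `x ↦ [Δ]` (odd), `x ↦ [s]` (even) (`CoprodI.lift`; `[y'] ^ (c false) = 1`, `[Δ] ^ 2 = 1`), and `ψ ∘ p` is the quotient map (check on `s`, `t`; odd: `ψ (p t) = [Δ y' ^ (k + 1)] = [t z0]`). So `p z = 1` implies `z = z0 ^ j`, which is central. If moreover all homomorphisms to `ℤ` vanish on `z`: the one with
`s, t ↦ 1` maps `z0` to `2 m` (odd) or `2 k` (even), so `j = 0`, `z = 1`. Surjective: the range contains `x` and `y`. The last part: generators `s`, `t`. -/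
def XPi : Prop :=
  ∀ M : CoxeterMatrix (Fin 2), 3 ≤ M.M 0 1 → ∃ c : Bool → ℕ, Adm c ∧
    ∃ p : Art M →* FZ c, Function.Surjective p ∧
      (∀ z, p z = 1 → ∀ a, a * z = z * a) ∧
      (∀ z, p z = 1 → (∀ φ : Art M →* Multiplicative ℤ, φ z = 1) → z = 1) ∧
      ((c true = 0 ∧ p (gn M 0) = gz c true ∧ p (gn M 1) = (gz c true)⁻¹ * gz c false) ∨
        (c true = 2 ∧ ∃ k : ℕ, 0 < k ∧ k < c false ∧
          p (gn M 0) = (gz c false ^ k)⁻¹ * gz c true ∧
          p (gn M 1) = gz c true * (gz c false ^ k)⁻¹))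

/-- **The matrices span** (60 lines).
Proof. `c true = 0`: the matrices `1` and `mx` are diagonal and independent (`T ≠ 1`), so the span contains `e11` and `e22`; `Y = my ζ` has nonzero entries, so `e11 Y e22` and `e22 Y e11` give `e12`, `e21`; the span is an algebra (the matrices of a group). `c true = 2`: let `X = !![0, T; T⁻¹, 0]`. The span contains `1`, `X`, `Y`, so `Y' = !![1, 2; 1, 1] diag (1, 0) !![-1, 2; 1, -1]` up to scalars
(`ζ ≠ 1`): `Y' = !![-1, 2; -1, 2]` (`my ζ = 1 + (ζ - 1) Y'`). The matrices `1`, `X`, `Y'`, `X Y'` are independent: `X Y' = !![-T, 2 T; -T⁻¹, 2 T⁻¹]`; a relation `a + b X + c Y' + d X Y' = 0`: entries `a - c - d T = 0`, `b T + 2 c + 2 d T = 0`, `b T⁻¹ - c - d T⁻¹ = 0`, `a + 2 c + 2 d T⁻¹ = 0`. From the first and last: `3 c + d (2 T⁻¹ + T) = 0`; from the second and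
third (`b = - 2 c T⁻¹ - 2 d`, `b = c T + d`): `c (T + 2 T⁻¹) + 3 d = 0`. So `c = d = 0` unless `(T + 2 T⁻¹) ^ 2 = 9`, that is `(T ^ 2 - 1) (T ^ 2 - 4) = 0`, excluded by `v T ≠ 1`. -/
def XSpan : Prop :=
  ∀ (c : Bool → ℕ), Adm c → ∀ (K : Type) [Field K] [Algebra ℂ K]
    (v : Valuation K (WithZero (Multiplicative ℤ))) (T : K) (ζ : ℂ), T ≠ 0 → v T ≠ 1 →
    (∀ a : ℂ, a ≠ 0 → v (algebraMap ℂ K a) = 1) → IsPrimitiveRoot ζ (c false) →
    ∀ τ : FZ c →* GL (Fin 2) K, (τ (gz c true)).1 = mx c T →
      (τ (gz c false)).1 = my (algebraMap ℂ K ζ) →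
      Submodule.span K (Set.range fun g => (τ g).1) = ⊤

/-- **The property TSB for the type I2(m)** (from `XOut`, `XPing`, `XSpan`, `XVal`, `XPi`, 200 lines).
Proof. `c`, `p` from `XPi`. `ζ` a primitive root of unity of order `c false` (`Complex.isPrimitiveRoot_exp`). `τ0 : FZ c →* GL (Fin 2) K1` from `XPing` for `v` of `XVal` and `T = xx`; `τ` = its image under `φ : K1 →+* K` (injective), `ρ = τ ∘ p`. If `τ g` is scalar then `τ0 g` is scalar (entries), so `g = 1`. SPAN: the span of the `τ0 g` is everything (`XSpan`), so there are four elements whose matrices are a basis over `K1`, their images under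
`φ` are a basis over `K` (the determinant is not zero); or: the elementary matrices are `K1`-combinations of the `τ0 g`, apply `φ`; `p` is surjective. TRACES of `ρ (gn M 0)`, `ρ (gn M 1)`: images under `φ` of (first case of `XPi`) `xx + 1` and `(2 - ζ) xx⁻¹ + (2 ζ - 1)`, (second case, `z = ζ ^ (-k) ≠ 1`, as `0 < k < c false`) `(2 z - 2) xx⁻¹ + (1 - z) xx = (1 - z) (xx - 2 xx⁻¹)` and the same for `X Y ^ (-k)`: not zero, since `v xx ≠ 1`
(two terms of different valuation) or since `xx` is transcendental. KERNEL: if `ρ z` is scalar then `p z = 1` and `z` is central. CENTER: if `z` is central then `τ (p z)` commutes with all matrices (span), so it is scalar and `p z = 1`; so `p z = 1` iff `z` is central, and every `α : MulAut (Art M)` preserves the kernel of `p`. So there is a homomorphism `Θ : MulAut (Art M) →* MulAut (FZ c)` with `Θ α (p x) = p (α x)`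
(`Function.Surjective` and the kernel; or `MulEquiv` of the quotient). `H` = the preimage under `Θ` of the range of `conj` (`XOut`), of finite index. If `Θ α = conj f`, `f = p y`, then `ρ (α x) = τ (f * p x * f⁻¹) = τ f * ρ x * (τ f)⁻¹`: `TS` with `χ = 1`, `g = τ f`. LAST PART: `z` central gives `p z = 1`, and `XPi`. -/
def XTSB : Prop :=
  ∀ M : CoxeterMatrix (Fin 2), 3 ≤ M.M 0 1 → ∀ (K : Type) [Field K] (_ : K1 →+* K),
    (∃ (ρ : Art M →* GL (Fin 2) K) (H : Subgroup (MulAut (Art M))),
      Submodule.span K (Set.range fun x => (ρ x).1) = ⊤ ∧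
      (∀ i, (ρ (gn M i)).1.trace ≠ 0) ∧
      (∀ z, (∃ m : K, (ρ z).1 = m • (1 : Matrix (Fin 2) (Fin 2) K)) → ∀ a, a * z = z * a) ∧
      H.FiniteIndex ∧ ∀ α ∈ H, TS ρ α) ∧
    ∀ z : Art M, (∀ a, a * z = z * a) → (∀ φ : Art M →* Multiplicative ℤ, φ z = 1) → z = 1

end art

end Pool.Agent.Lib.MP_97567f_al
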