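import Pool.Agent.Lib.MP_97567f_al.I2.Spec
import Pool.Agent.Lib.MP_97567f_al.U.Base

/-!
# MP_97567f_al, type I2(m): the final statement
-/

set_option autoImplicit false

namespace Pool.Agent.Lib.MP_97567f_al

/-- **Type I2(m)** (from `XPres`, `XOut`, `XPing`, `XSpan`, `XVal`, `XPi`).
Proof. `c`, `p`, `τ` as in `XTSB` over the field `KK`, `ρ = τ ∘ p`. `A` with `Fac i r`: `XPres` for `ρ ∘ r` and `A1 = i.range`: if `ρ (r x)` is scalar then `p (r x) = 1`, `r x` is central and `x = i (r x) * k` with `r k = 1` commutes with `i b`. So a subgroup `H0` of finite index preserves the kernel of `p ∘ r`, and acts on `FZ c`; `H` is the preimage of the inner automorphisms. -/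
def XGood : Prop :=
  ∀ M : CoxeterMatrix (Fin 2), 3 ≤ M.M 0 1 → U.Good (Art M)

end Pool.Agent.Lib.MP_97567f_al
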