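import Pool.Agent.Lib.MP_97567f_al.I2.Spec

/-!
# MP_97567f_al, type I2(m): the property TSB
-/

set_option autoImplicit false

namespace Pool.Agent.Lib.MP_97567f_al

open Monoid Polynomial

/-- A `2 × 2` matrix which commutes with all matrices is scalar. -/
private theorem I2TSB_scal {K : Type} [Field K] (W : Matrix (Fin 2) (Fin 2) K)
    (h : ∀ Y : Matrix (Fin 2) (Fin 2) K, W * Y = Y * W) :
    ∃ m : K, W = m • (1 : Matrix (Fin 2) (Fin 2) K) := by
  have h1 := h !![0, 1; 0, 0]
  have h2 := h !![0, 0; 1, 0]
  have a1 := congrFun (congrFun h1 0) 1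
  have a2 := congrFun (congrFun h1 0) 0
  have a3 := congrFun (congrFun h2 0) 0
  simp [Matrix.mul_apply, Fin.sum_univ_two] at a1 a2 a3
  refine ⟨W 0 0, ?_⟩
  ext i j
  fin_cases i <;> fin_cases j
  · simp
  · simpa using a3
  · simpa using a2.symm
  · simpa using a1.symm

/-- The image of a matrix under an injective map is scalar only if the matrix is. -/
private theorem I2TSB_desc {K L : Type} [Field K] [Field L] (φ : K →+* L)
    (W : Matrix (Fin 2) (Fin 2) K) (m : L) (h : W.map φ = m • (1 : Matrix (Fin 2) (Fin 2) L)) :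
    ∃ m : K, W = m • (1 : Matrix (Fin 2) (Fin 2) K) := by
  have a1 : φ (W 0 0) = m := by
    have := congrFun (congrFun h 0) 0
    simpa using this
  have a2 : φ (W 0 1) = 0 := by
    have := congrFun (congrFun h 0) 1
    simpa using this
  have a3 : φ (W 1 0) = 0 := by
    have := congrFun (congrFun h 1) 0
    simpa using this
  have a4 : φ (W 1 1) = m := by
    have := congrFun (congrFun h 1) 1
    simpa using this
  refine ⟨W 0 0, ?_⟩
  ext i j
  fin_cases i <;> fin_cases j
  · simp
  · have := φ.injective (a2.trans (map_zero φ).symm)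
    simpa using this
  · have := φ.injective (a3.trans (map_zero φ).symm)
    simpa using this
  · have := φ.injective (a4.trans a1.symm)
    simpa using this

/-- The span after an extension of the field. -/
private theorem I2TSB_span {K L G : Type} [Field K] [Field L] (φ : K →+* L)
    (f : G → Matrix (Fin 2) (Fin 2) K) (h : Submodule.span K (Set.range f) = ⊤) :
    Submodule.span L (Set.range fun g => (f g).map φ) = ⊤ := by
  have key : ∀ Z ∈ Submodule.span K (Set.range f),
      Z.map φ ∈ Submodule.span L (Set.range fun g => (f g).map φ) := by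
    intro Z hZ
    induction hZ using Submodule.span_induction with
    | mem x hx =>
      obtain ⟨g, rfl⟩ := hx
      exact Submodule.subset_span ⟨g, rfl⟩
    | zero =>
      have : (0 : Matrix (Fin 2) (Fin 2) K).map φ = 0 := by
        ext i j
        simp
      rw [this]
      exact Submodule.zero_mem _
    | add x y _ _ hx hy =>
      have : (x + y).map φ = x.map φ + y.map φ := by
        ext i j
        simp
      rw [this]
      exact Submodule.add_mem _ hx hy
    | smul a x _ hx =>
      have : (a • x).map φ = φ a • x.map φ := by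
        ext i j
        simp
      rw [this]
      exact Submodule.smul_mem _ _ hx
  rw [Submodule.eq_top_iff']
  intro Y
  rw [Matrix.matrix_eq_sum_single Y]
  apply Submodule.sum_mem
  intro i _
  apply Submodule.sum_mem
  intro j _
  have h1 : Matrix.single i j (Y i j) = Y i j • (Matrix.single i j (1 : K)).map φ := by
    rw [Matrix.map_single, map_one, Matrix.smul_single, smul_eq_mul, mul_one]
  rw [h1]
  apply Submodule.smul_mem
  apply key
  rw [h]
  trivial

private theorem I2TSB_my_mul {K : Type} [Field K] (z w : K) : my z * my w = my (z * w) := by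
  ext i j
  fin_cases i <;> fin_cases j <;> simp [my, Matrix.mul_apply, Fin.sum_univ_two] <;> ring

private theorem I2TSB_my_one {K : Type} [Field K] : my (1 : K) = 1 := by
  ext i j
  fin_cases i <;> fin_cases j <;> simp [my] <;> norm_num

private theorem I2TSB_my_pow {K : Type} [Field K] (z : K) (k : ℕ) : my z ^ k = my (z ^ k) := by
  induction k with
  | zero => rw [pow_zero, pow_zero, I2TSB_my_one]
  | succ k ih => rw [pow_succ, pow_succ, ih, I2TSB_my_mul]

/-- Polynomials in `xx`. -/
private theorem I2TSB_poly (P : ℂ[X]) (h : P ≠ 0) : algebraMap ℂ[X] K1 P ≠ 0 := by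
  intro h1
  apply h
  apply IsFractionRing.injective ℂ[X] K1
  rw [h1, map_zero]

private theorem I2TSB_const (a : ℂ) : algebraMap ℂ K1 a = algebraMap ℂ[X] K1 (C a) := by
  rw [IsScalarTower.algebraMap_apply ℂ ℂ[X] K1]
  rfl

/-- The inverse of an element of `GL` given by a matrix. -/
private theorem I2TSB_inv {K : Type} [Field K] (g : GL (Fin 2) K) (W : Matrix (Fin 2) (Fin 2) K)
    (h : W * g.1 = 1) : (g⁻¹).1 = W := by
  calc (g⁻¹).1 = (W * g.1) * (g⁻¹).1 := by rw [h, one_mul]
    _ = W * (g.1 * (g⁻¹).1) := by rw [mul_assoc]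
    _ = W := by rw [← Units.val_mul, mul_inv_cancel, Units.val_one, mul_one]

/-- **The property TSB.** -/
theorem qTSB (h1 : XOut) (h2 : XPing) (h3 : XSpan) (h4 : XVal) (h5 : XPi) : XTSB := by
  intro M hM K _ φ
  obtain ⟨c, hc, p, hsurj, hp1, hp2, hcase⟩ := h5 M hM
  obtain ⟨v, hv, hv1⟩ := h4
  have hcf : c false ≠ 0 := by
    rcases hc with ⟨-, h⟩ | ⟨-, h, -⟩ <;> omega
  obtain ⟨ζ, hζ⟩ : ∃ ζ : ℂ, IsPrimitiveRoot ζ (c false) := ⟨_, Complex.isPrimitiveRoot_exp _ hcf⟩
  have hxx : xx ≠ 0 := I2TSB_poly X X_ne_zero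
  obtain ⟨τ0, hτx, hτy, hτs⟩ := h2 c hc K1 v xx ζ hxx hv hv1 hζ
  have hspan0 := h3 c hc K1 v xx ζ hxx hv hv1 hζ τ0 hτx hτy
  have hnorm : ‖ζ‖ = 1 := hζ.norm'_eq_one hcf
  let τ : FZ c →* GL (Fin 2) K := (Matrix.GeneralLinearGroup.map φ).comp τ0
  have hτ : ∀ g, (τ g).1 = (τ0 g).1.map φ := fun g => rfl
  have hτ1 : ∀ g, (∃ m : K, (τ g).1 = m • (1 : Matrix (Fin 2) (Fin 2) K)) → g = 1 := by
    rintro g ⟨m, hm⟩
    exact hτs g (I2TSB_desc φ _ m hm)
  -- central elements
  have hcen : ∀ z : Art M, (∀ a, a * z = z * a) → p z = 1 := by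
    intro z hz
    apply hτs
    apply I2TSB_scal
    intro Y
    have hY : Y ∈ Submodule.span K1 (Set.range fun g => (τ0 g).1) := by
      rw [hspan0]; trivial
    induction hY using Submodule.span_induction with
    | mem x hx =>
      obtain ⟨g, rfl⟩ := hx
      obtain ⟨a, rfl⟩ := hsurj g
      change (τ0 (p z)).1 * (τ0 (p a)).1 = (τ0 (p a)).1 * (τ0 (p z)).1
      rw [← Units.val_mul, ← Units.val_mul, ← map_mul, ← map_mul, ← map_mul, ← map_mul, hz]
    | zero => rw [mul_zero, zero_mul]
    | add x y _ _ hx hy => rw [mul_add, add_mul, hx, hy]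
    | smul a x _ hx => rw [Matrix.mul_smul, Matrix.smul_mul, hx]
  have hcen' : ∀ z : Art M, p z = 1 ↔ ∀ a, a * z = z * a := fun z => ⟨fun h => hp1 z h, hcen z⟩
  have hpres : ∀ (α : MulAut (Art M)) (z : Art M), p (α z) = 1 ↔ p z = 1 := by
    intro α z
    rw [hcen', hcen']
    constructor
    · intro h a
      apply α.injective
      rw [map_mul, map_mul]
      exact h (α a)
    · intro h a
      have h6 := congrArg α (h (α.symm a))
      rw [map_mul, map_mul, MulEquiv.apply_symm_apply] at h6
      exact h6
  -- the homomorphism to the automorphisms of the quotient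
  have hker : ∀ α : MulAut (Art M), p.ker.map (α : Art M →* Art M) = p.ker := by
    intro α
    ext z
    rw [Subgroup.mem_map]
    constructor
    · rintro ⟨w, hw, rfl⟩
      exact (hpres α w).2 hw
    · intro hz
      refine ⟨α.symm z, ?_, MulEquiv.apply_symm_apply _ _⟩
      change p (α.symm z) = 1
      have h6 := hpres α (α.symm z)
      rw [MulEquiv.apply_symm_apply] at h6
      exact h6.1 hz
  let e := QuotientGroup.quotientKerEquivOfSurjective p hsurj
  have he : ∀ x : Art M, e (QuotientGroup.mk x) = p x := fun x => rfl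
  let Θf : MulAut (Art M) → MulAut (FZ c) := fun α =>
    (e.symm.trans (QuotientGroup.congr p.ker p.ker α (hker α))).trans e
  have hΘf : ∀ (α : MulAut (Art M)) (x : Art M), Θf α (p x) = p (α x) := by
    intro α x
    have h6 : e.symm (p x) = QuotientGroup.mk x := by
      rw [MulEquiv.symm_apply_eq]
      rfl
    change e ((QuotientGroup.congr p.ker p.ker α (hker α)) (e.symm (p x))) = p (α x)
    rw [h6]
    rfl
  let Θ : MulAut (Art M) →* MulAut (FZ c) := MonoidHom.mk' Θf (by
    intro α β
    apply MulEquiv.ext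
    intro g
    obtain ⟨x, rfl⟩ := hsurj g
    rw [hΘf, MulAut.mul_apply, MulAut.mul_apply, hΘf, hΘf])
  have hΘ : ∀ (α : MulAut (Art M)) (x : Art M), Θ α (p x) = p (α x) := hΘf
  have hfi := h1 c hc
  refine ⟨⟨τ.comp p, (MulAut.conj : FZ c →* MulAut (FZ c)).range.comap Θ, ?_, ?_, ?_, ?_, ?_⟩, ?_⟩
  · -- span
    have h6 := I2TSB_span φ (fun g => (τ0 g).1) hspan0
    have h7 : (Set.range fun x : Art M => ((τ.comp p) x).1) =
        Set.range fun g => ((τ0 g).1).map φ := by
      ext Y
      constructor
      · rintro ⟨x, rfl⟩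
        exact ⟨p x, rfl⟩
      · rintro ⟨g, rfl⟩
        obtain ⟨x, rfl⟩ := hsurj g
        exact ⟨x, rfl⟩
    rw [h7]
    exact h6
  · -- traces
    have htr : ∀ x : Art M, ((τ.comp p) x).1.trace = φ ((τ0 (p x)).1.trace) := by
      intro x
      change ((τ0 (p x)).1.map φ).trace = _
      rw [Matrix.trace_fin_two, Matrix.trace_fin_two, map_add]
      rfl
    have hmain : (τ0 (p (gn M 0))).1.trace ≠ 0 ∧ (τ0 (p (gn M 1))).1.trace ≠ 0 := by
      rcases hcase with ⟨hc0, hg0, hg1⟩ | ⟨hc2, k, hk0, hk1, hg0, hg1⟩
      · -- infinite case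
        have hmx : mx c xx = !![xx, 0; 0, 1] := by
          unfold mx
          rw [if_pos hc0]
        constructor
        · rw [hg0, hτx, hmx, Matrix.trace_fin_two]
          have h6 : (X + C 1 : ℂ[X]) ≠ 0 := X_add_C_ne_zero 1
          have h7 := I2TSB_poly _ h6
          rw [map_add, C_1, map_one] at h7
          exact h7
        · have hinv : ((τ0 (gz c true))⁻¹).1 = !![xx⁻¹, 0; 0, 1] := by
            apply I2TSB_inv
            rw [hτx, hmx]
            ext i j
            fin_cases i <;> fin_cases j <;> simp [Matrix.mul_apply, Fin.sum_univ_two, hxx]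
          rw [hg1, map_mul, map_inv, Units.val_mul, hinv, hτy]
          have h6 : (!![xx⁻¹, 0; 0, 1] * my (algebraMap ℂ K1 ζ)).trace =
              xx⁻¹ * (2 - algebraMap ℂ K1 ζ) + (2 * algebraMap ℂ K1 ζ - 1) := by
            rw [Matrix.trace_fin_two]
            simp [my, Matrix.mul_apply, Fin.sum_univ_two]
          rw [h6]
          intro h7
          have h8 : (2 - algebraMap ℂ K1 ζ) + (2 * algebraMap ℂ K1 ζ - 1) * xx = 0 := by
            have h9 := congrArg (fun a => a * xx) h7
            simp only [zero_mul] at h9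
            rw [← h9]
            field_simp
          have h10 : (C (2 - ζ) + C (2 * ζ - 1) * X : ℂ[X]) ≠ 0 := by
            intro h11
            have h12 := congrArg (fun P : ℂ[X] => P.coeff 0) h11
            simp at h12
            have h13 : ζ = 2 := (sub_eq_zero.1 h12).symm
            rw [h13] at hnorm
            norm_num at hnorm
          apply I2TSB_poly _ h10
          rw [map_add, map_mul, ← I2TSB_const, ← I2TSB_const, map_sub, map_sub, map_mul, map_one]
          have h14 : algebraMap ℂ K1 2 = 2 := map_ofNat _ 2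
          rw [h14]
          exact h8
      · -- involution case
        have hmx : mx c xx = !![0, xx; xx⁻¹, 0] := by
          unfold mx
          rw [if_neg (by omega)]
        have hζ0 : ζ ≠ 0 := by
          intro h
          rw [h, norm_zero] at hnorm
          exact zero_ne_one hnorm
        have hζk : ζ ^ k ≠ 1 := hζ.pow_ne_one_of_pos_of_lt (by omega) hk1
        have hinv : ((τ0 (gz c false ^ k))⁻¹).1 = my (algebraMap ℂ K1 ((ζ ^ k)⁻¹)) := by
          apply I2TSB_inv
          rw [map_pow, Units.val_pow_eq_pow_val, hτy, I2TSB_my_pow, I2TSB_my_mul, ← map_pow,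
            ← map_mul, inv_mul_cancel₀ (pow_ne_zero k hζ0), map_one, I2TSB_my_one]
        have h6 : ∀ z : ℂ, z ≠ 1 → (my (algebraMap ℂ K1 z) * !![0, xx; xx⁻¹, 0]).trace ≠ 0 := by
          intro z hz h7
          have h8 : (my (algebraMap ℂ K1 z) * !![0, xx; xx⁻¹, 0]).trace =
              (2 * algebraMap ℂ K1 z - 2) * xx⁻¹ + (1 - algebraMap ℂ K1 z) * xx := by
            rw [Matrix.trace_fin_two]
            simp [my, Matrix.mul_apply, Fin.sum_univ_two]
          rw [h8] at h7
          have h9 : (1 - algebraMap ℂ K1 z) * (xx ^ 2 - 2) = 0 := by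
            have h10 := congrArg (fun a => a * xx) h7
            simp only [zero_mul] at h10
            rw [← h10]
            field_simp
            ring
          have h11 : (C (1 - z) * (X ^ 2 - C 2) : ℂ[X]) ≠ 0 := by
            apply mul_ne_zero
            · rw [Ne, C_eq_zero, sub_eq_zero]
              exact fun h => hz h.symm
            · exact X_pow_sub_C_ne_zero (by norm_num) 2
          apply I2TSB_poly _ h11
          have e1 : algebraMap ℂ[X] K1 (C (1 - z)) = 1 - algebraMap ℂ K1 z := by
            rw [← I2TSB_const, map_sub, map_one]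
          have e3 : algebraMap ℂ[X] K1 (C 2) = 2 := by
            rw [← I2TSB_const]
            exact map_ofNat _ 2
          have e2 : algebraMap ℂ[X] K1 (X ^ 2 - C 2) = xx ^ 2 - 2 := by
            rw [map_sub, map_pow, e3]
            rfl
          rw [map_mul, e1, e2]
          exact h9
        have hz1 : (ζ ^ k)⁻¹ ≠ 1 := fun h => hζk (inv_eq_one.1 h)
        constructor
        · rw [hg0, map_mul, map_inv, Units.val_mul, hinv, hτx, hmx]
          exact h6 _ hz1
        · rw [hg1, map_mul, map_inv, Units.val_mul, hinv, hτx, hmx, Matrix.trace_mul_comm]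
          exact h6 _ hz1
    intro i
    rw [htr, Ne, map_eq_zero]
    fin_cases i
    · exact hmain.1
    · exact hmain.2
  · -- kernel
    rintro z hz
    exact hp1 z (hτ1 (p z) hz)
  · -- finite index
    refine ⟨?_⟩
    rw [Subgroup.index_comap]
    have h6 : (MulAut.conj : FZ c →* MulAut (FZ c)).range.IsFiniteRelIndex Θ.range :=
      Subgroup.isFiniteRelIndex_of_finiteIndex (h := hfi)
    exact h6.relIndex_ne_zero
  · -- twists
    rintro α ⟨f, hf⟩
    refine ⟨1, τ f, ?_⟩
    intro x
    have h6 : p (α x) = f * p x * f⁻¹ := by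
      rw [← hΘ, ← hf]
      rfl
    change (τ (p (α x))).1 = _
    rw [h6, map_mul, map_mul, map_inv, Units.val_mul, Units.val_mul, MonoidHom.one_apply,
      Units.val_one, one_smul]
    rfl
  · intro z hz hφ
    exact hp2 z (hcen z hz) hφ

end Pool.Agent.Lib.MP_97567f_al
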